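import Mathlib

open Set Filter Topology

noncomputable section

namespace CFib

/-- the circle -/
abbrev S : Type := AddCircle (1:ℝ)
/-- the square -/
abbrev B : Type := unitInterval × unitInterval

/-- boundary of the square -/
def bd : Set B := {x | x.1 = 0 ∨ x.1 = 1 ∨ x.2 = 0 ∨ x.2 = 1}

open Classical in
/-- boundary values: once around the circle on the right side, `0` on the other three sides -/
def bval (x : B) : S := if x.1 = 1 then ((x.2 : ℝ) : S) else 0

/-- clip to `[0,1]` -/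
def clip (z : ℝ) : ℝ := max 0 (min 1 z)

/-- `w` in the definition of `F0` -/
def wid (p x : B) : ℝ := ((x.1 : ℝ) - p.1) / (1 - p.1)

open Classical in
/-- a map `B → S`, continuous off `p`, with boundary values `bval` (for interior `p`) -/
def F0 (p x : B) : S :=
  if p ∈ bd then 0 else
  if (x.1 : ℝ) ≤ p.1 then 0 else
    ((clip (((x.2 : ℝ) - (p.2 + (1/2 - p.2) * wid p x)) / wid p x + 1/2) : ℝ) : S)

variable {Ω : Type} [LinearOrder Ω]

/-- the tuples admissible for a requirement at stage `a` -/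
def W (q : Ω → B) (P : Ω → Ω × S → S) (a : Ω) {k : ℕ} (J : Finset (Fin k)) (V : Fin k → Set B)
    (s : Fin k → Option Ω) (N : Fin k → Set S) : Set (Fin k → Ω × S) :=
  {x | Function.Injective x ∧ (∀ i ∈ J, (x i).1 < a) ∧ (∀ i, q (x i).1 ∈ V i) ∧
    ∀ i b, s i = some b → P b (x i) ∈ N i}

/-- the conditions on the `a`-th coordinate `G` over the previous coordinates `P b`, `b < a` -/
structure StageOK (q : Ω → B) (task : Ω → Σ k : ℕ, (ℕ → Fin k → Ω × S)) (a : Ω)
    (P : Ω → Ω × S → S) (G : Ω × S → S) : Prop where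
  diag : ∀ c, G (a, c) = c
  conv : ∀ x : Ω × S, x.1 ≠ a → ∀ l : Filter (Ω × S),
    Tendsto (fun y => q y.1) l (𝓝 (q x.1)) → (∀ b < a, Tendsto (P b) l (𝓝 (P b x))) →
    Tendsto G l (𝓝 (G x))
  osc : ∀ b, b ≠ a → ∃ r : ℝ, ∀ c, ∃ y ∈ Icc r (r + 3/4), G (b, c) = (y : S)
  bdry : q a ∉ bd → ∀ b c, q b ∈ bd → G (b, c) = bval (q b)
  gen : ∀ ξ, ξ < a → ∀ (J : Finset (Fin (task ξ).1)) (V : Fin (task ξ).1 → Set B)
    (s : Fin (task ξ).1 → Option Ω) (N : Fin (task ξ).1 → Set S) (t : Fin (task ξ).1 → ℚ),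
    (∀ i, V i ∈ TopologicalSpace.countableBasis B) →
    (∀ i, N i ∈ TopologicalSpace.countableBasis S) →
    (∀ i b, s i = some b → b < a) →
    (∀ i ∈ J, ∀ j ∈ J, |((t i : ℚ) : ℝ) - ((t j : ℚ) : ℝ)| ≤ 3/4) →
    (∀ ρ : ℝ, 0 < ρ → ∃ n, (task ξ).2 n ∈ W q P a J V s N ∧
      ∀ i ∈ J, dist (q ((task ξ).2 n i).1) (q a) < ρ) →
    ∃ n, (task ξ).2 n ∈ W q P a J V s N ∧
      ∀ i ∈ J, G ((task ξ).2 n i) = ((((t i : ℚ) : ℝ)) : S)

/-- a good system of coordinates -/
def Good (q : Ω → B) (task : Ω → Σ k : ℕ, (ℕ → Fin k → Ω × S)) (F : Ω → Ω × S → S) : Prop :=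
  ∀ a, StageOK q task a F (F a)

/-- the point set `Ω × S` with the topology induced by `q ∘ fst` and all the coordinates `F a` -/
def XT (_q : Ω → B) (_F : Ω → Ω × S → S) : Type := Ω × S

instance XT.instTop (q : Ω → B) (F : Ω → Ω × S → S) : TopologicalSpace (XT q F) :=
  TopologicalSpace.induced (fun x : Ω × S => (q x.1, fun a => F a x)) inferInstance

end CFib
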