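import Mathlib
import Pool.Agent.Helper416.CFib.Base

open Set Filter Topology

noncomputable section

namespace CFib

variable {Ω : Type} [LinearOrder Ω]

lemma F0_cont_clip_one {z : ℝ} (h : 1 ≤ z) : ((clip z : ℝ) : S) = 0 := by
  have h1 : clip z = 1 := by
    unfold clip
    rw [min_eq_left h, max_eq_right zero_le_one]
  rw [h1]
  exact AddCircle.coe_period (1:ℝ)

lemma F0_cont_clip_zero {z : ℝ} (h : z ≤ 0) : ((clip z : ℝ) : S) = 0 := by
  have h1 : clip z = 0 := by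
    unfold clip
    rw [max_eq_left]
    exact (min_le_right _ _).trans h
  rw [h1]
  rfl

lemma F0_cont (p x : B) (h : x ≠ p) : ContinuousAt (F0 p) x := by
  by_cases hp : p ∈ bd
  · have h1 : F0 p = fun _ => 0 := by
      funext y
      unfold F0
      rw [if_pos hp]
    rw [h1]
    exact continuousAt_const
  have hp' : ¬ (p.1 = 0 ∨ p.1 = 1 ∨ p.2 = 0 ∨ p.2 = 1) := hp
  push Not at hp'
  obtain ⟨hp1, hp2, hp3, hp4⟩ := hp'
  have a1 : (p.1 : ℝ) < 1 := lt_of_le_of_ne p.1.2.2 (fun e => hp2 (Subtype.ext e))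
  have b0 : 0 < (p.2 : ℝ) := lt_of_le_of_ne p.2.2.1 (fun e => hp3 (Subtype.ext e.symm))
  have b1 : (p.2 : ℝ) < 1 := lt_of_le_of_ne p.2.2.2 (fun e => hp4 (Subtype.ext e))
  have hs0 : (0:ℝ) < 1 - p.1 := by linarith
  have c1 : Continuous (fun y : B => (y.1 : ℝ)) := continuous_subtype_val.comp continuous_fst
  have c2 : Continuous (fun y : B => (y.2 : ℝ)) := continuous_subtype_val.comp continuous_snd
  have cw : Continuous (fun y : B => wid p y) := by
    unfold wid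
    exact (c1.sub continuous_const).div_const _
  rcases lt_trichotomy (x.1 : ℝ) (p.1 : ℝ) with hlt | heq | hgt
  · -- left part
    have hev : (fun _ => (0 : S)) =ᶠ[𝓝 x] F0 p := by
      have : ∀ᶠ y in 𝓝 x, (y.1 : ℝ) < p.1 := c1.continuousAt.eventually_lt_const hlt
      filter_upwards [this] with y hy
      unfold F0
      rw [if_neg hp, if_pos hy.le]
    exact continuousAt_const.congr hev
  · -- on the line
    have hne : (x.2 : ℝ) ≠ p.2 := by
      intro e
      exact h (Prod.ext (Subtype.ext heq) (Subtype.ext e))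
    have hd : 0 < |(x.2 : ℝ) - p.2| := abs_pos.2 (sub_ne_zero.2 hne)
    set d : ℝ := |(x.2 : ℝ) - p.2| with hdd
    have hw0 : wid p x = 0 := by
      unfold wid
      rw [heq, sub_self, zero_div]
    have e1 : ∀ᶠ y in 𝓝 x, wid p y < d / 4 := by
      apply cw.continuousAt.eventually_lt_const
      show wid p x < d / 4
      rw [hw0]
      linarith
    have e2 : ∀ᶠ y in 𝓝 x, |(y.2 : ℝ) - x.2| < d / 4 := by
      have c3 : Continuous (fun y : B => |(y.2 : ℝ) - x.2|) := (c2.sub continuous_const).abs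
      apply c3.continuousAt.eventually_lt_const
      show |(x.2 : ℝ) - x.2| < d / 4
      rw [sub_self, abs_zero]
      linarith
    have hev : (fun _ => (0 : S)) =ᶠ[𝓝 x] F0 p := by
      filter_upwards [e1, e2] with y hy1 hy2
      unfold F0
      rw [if_neg hp]
      split_ifs with hy
      · rfl
      · push Not at hy
        have hwpos : 0 < wid p y := by
          unfold wid
          exact div_pos (by linarith) hs0
        set w := wid p y with hw
        have m1 : |(1/2 - (p.2:ℝ)) * w| ≤ w / 2 := by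
          rw [abs_mul, abs_of_pos hwpos]
          have : |1/2 - (p.2:ℝ)| ≤ 1/2 := by
            rw [abs_le]
            constructor <;> linarith
          nlinarith
        have key : w / 2 ≤ |(y.2 : ℝ) - (p.2 + (1/2 - p.2) * w)| := by
          have t1 : d ≤ |(x.2 : ℝ) - y.2| + |(y.2 : ℝ) - (p.2 + (1/2 - p.2) * w)| +
              |(1/2 - (p.2:ℝ)) * w| := by
            have e : (x.2 : ℝ) - p.2 = ((x.2 : ℝ) - y.2) + ((y.2 : ℝ) - (p.2 + (1/2 - p.2) * w)) +
              (1/2 - (p.2:ℝ)) * w := by ring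
            rw [hdd, e]
            exact (abs_add_le _ _).trans (add_le_add (abs_add_le _ _) le_rfl)
          rw [abs_sub_comm (x.2 : ℝ) y.2] at t1
          linarith
        rcases le_abs.1 key with k | k
        · rw [F0_cont_clip_one]
          have : 1 / 2 ≤ ((y.2 : ℝ) - (p.2 + (1/2 - p.2) * w)) / w := by
            rw [le_div_iff₀ hwpos]
            linarith
          linarith
        · rw [F0_cont_clip_zero]
          have : ((y.2 : ℝ) - (p.2 + (1/2 - p.2) * w)) / w ≤ -(1 / 2) := by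
            rw [div_le_iff₀ hwpos]
            linarith
          linarith
    exact continuousAt_const.congr hev
  · -- right part
    have hwx : wid p x ≠ 0 := by
      unfold wid
      exact (div_pos (by linarith) hs0).ne'
    have hev : (fun y : B => ((clip (((y.2 : ℝ) - (p.2 + (1/2 - p.2) * wid p y)) / wid p y
        + 1/2) : ℝ) : S)) =ᶠ[𝓝 x] F0 p := by
      have : ∀ᶠ y in 𝓝 x, (p.1 : ℝ) < y.1 := c1.continuousAt.eventually_const_lt hgt
      filter_upwards [this] with y hy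
      unfold F0
      rw [if_neg hp, if_neg (not_le.2 hy)]
    refine ContinuousAt.congr ?_ hev
    have hclip : Continuous clip := by
      unfold clip
      exact continuous_const.max (continuous_const.min continuous_id)
    have hin : ContinuousAt (fun y : B => ((y.2 : ℝ) - (p.2 + (1/2 - p.2) * wid p y)) / wid p y
        + 1/2) x := by
      refine ContinuousAt.add ?_ continuousAt_const
      refine ContinuousAt.div ?_ cw.continuousAt hwx
      exact (c2.sub (continuous_const.add (continuous_const.mul cw))).continuousAt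
    have h3 : ContinuousAt (fun y : B => clip (((y.2 : ℝ) - (p.2 + (1/2 - p.2) * wid p y)) / wid p y
        + 1/2)) x := ContinuousAt.comp (g := clip) hclip.continuousAt hin
    exact ContinuousAt.comp (g := fun r : ℝ => (r : S))
      (AddCircle.continuous_mk' (1:ℝ)).continuousAt h3

lemma F0_bd (p x : B) (hp : p ∉ bd) (hx : x ∈ bd) : F0 p x = bval x := by
  have hp1 : p.1 ≠ 0 := fun h => hp (Or.inl h)
  have hp2 : p.1 ≠ 1 := fun h => hp (Or.inr (Or.inl h))
  have hp3 : p.2 ≠ 0 := fun h => hp (Or.inr (Or.inr (Or.inl h)))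
  have hp4 : p.2 ≠ 1 := fun h => hp (Or.inr (Or.inr (Or.inr h)))
  have a1 : (0 : ℝ) < p.1 := lt_of_le_of_ne p.1.2.1 (fun h => hp1 (Subtype.ext h.symm))
  have a2 : (p.1 : ℝ) < 1 := lt_of_le_of_ne p.1.2.2 (fun h => hp2 (Subtype.ext h))
  have a3 : (0 : ℝ) < p.2 := lt_of_le_of_ne p.2.2.1 (fun h => hp3 (Subtype.ext h.symm))
  have a4 : (p.2 : ℝ) < 1 := lt_of_le_of_ne p.2.2.2 (fun h => hp4 (Subtype.ext h))
  unfold F0 bval
  rw [if_neg hp]
  by_cases h1 : (x.1 : ℝ) ≤ p.1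
  · rw [if_pos h1]
    have h2 : x.1 ≠ 1 := by
      intro h
      rw [h] at h1
      have h3 : (1 : ℝ) ≤ p.1 := h1
      linarith
    rw [if_neg h2]
  · rw [if_neg h1]
    push Not at h1
    have hx1 : (x.1 : ℝ) ≤ 1 := x.1.2.2
    have hw0 : 0 < wid p x := div_pos (by linarith) (by linarith)
    have hw1 : wid p x ≤ 1 := by
      unfold wid
      rw [div_le_one (by linarith)]
      linarith
    by_cases h2 : x.1 = 1
    · rw [if_pos h2]
      have hw : wid p x = 1 := by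
        unfold wid
        rw [h2]
        have h3 : (((1 : unitInterval) : ℝ)) = 1 := rfl
        rw [h3]
        exact div_self (by linarith)
      rw [hw]
      congr 1
      have h4 : ((x.2 : ℝ) - (p.2 + (1/2 - p.2) * 1)) / 1 + 1/2 = x.2 := by ring
      rw [h4]
      unfold clip
      rw [min_eq_right x.2.2.2, max_eq_right x.2.2.1]
    · rw [if_neg h2]
      obtain ⟨w, hw⟩ : ∃ w, w = wid p x := ⟨_, rfl⟩
      rw [← hw] at hw0 hw1 ⊢
      rcases hx with h | h | h | h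
      · exfalso
        rw [h] at h1
        have h3 : (p.1 : ℝ) < 0 := h1
        linarith
      · exact absurd h h2
      · rw [h]
        have h3 : (((0 : unitInterval) : ℝ)) = 0 := rfl
        rw [h3]
        have h4 : ((0 : ℝ) - (p.2 + (1/2 - p.2) * w)) / w + 1/2 ≤ 0 := by
          have h5 : ((0 : ℝ) - (p.2 + (1/2 - p.2) * w)) / w + 1/2 = (p.2 * (w - 1)) / w := by
            field_simp
            ring
          rw [h5]
          apply div_nonpos_of_nonpos_of_nonneg _ hw0.le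
          nlinarith
        have h6 : clip (((0 : ℝ) - (p.2 + (1/2 - p.2) * w)) / w + 1/2) = 0 := by
          unfold clip
          rw [min_eq_right (by linarith), max_eq_left h4]
        rw [h6]
        rfl
      · rw [h]
        have h3 : (((1 : unitInterval) : ℝ)) = 1 := rfl
        rw [h3]
        have h4 : 1 ≤ ((1 : ℝ) - (p.2 + (1/2 - p.2) * w)) / w + 1/2 := by
          have h5 : ((1 : ℝ) - (p.2 + (1/2 - p.2) * w)) / w + 1/2
              = 1 + ((1 - p.2) * (1 - w)) / w := by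
            field_simp
            ring
          rw [h5]
          have h6 : 0 ≤ ((1 - (p.2 : ℝ)) * (1 - w)) / w := by
            apply div_nonneg _ hw0.le
            apply mul_nonneg <;> linarith
          linarith
        have h6 : clip (((1 : ℝ) - (p.2 + (1/2 - p.2) * w)) / w + 1/2) = 1 := by
          unfold clip
          rw [min_eq_left h4, max_eq_right zero_le_one]
        rw [h6]
        exact AddCircle.coe_period 1

lemma isClosed_bd : IsClosed bd := by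
  have h : bd = ({x : B | x.1 = 0} ∪ ({x : B | x.1 = 1} ∪ ({x : B | x.2 = 0} ∪ {x : B | x.2 = 1}))) := by
    ext x
    rfl
  rw [h]
  exact (isClosed_eq continuous_fst continuous_const).union
    ((isClosed_eq continuous_fst continuous_const).union
      ((isClosed_eq continuous_snd continuous_const).union
        (isClosed_eq continuous_snd continuous_const)))

lemma patch_pos {ι : Type*} (s : Finset ι) (f : ι → ℝ) (h : ∀ i ∈ s, 0 < f i) :
    ∃ ε > 0, ∀ i ∈ s, ε ≤ f i := by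
  classical
  rcases s.eq_empty_or_nonempty with rfl | hs
  · exact ⟨1, one_pos, fun i hi => absurd hi (Finset.notMem_empty i)⟩
  · obtain ⟨i, hi, hmin⟩ := Finset.exists_min_image s f hs
    exact ⟨f i, h i hi, hmin⟩

lemma patch_interp {X : Type*} [TopologicalSpace X] [T1Space X] [NormalSpace X] {ι : Type*}
    (J : Finset ι) (z : ι → X) (hz : Set.InjOn z J) (v : ι → ℝ) (lo hi : ℝ) (hlh : lo ≤ hi)
    (hv : ∀ i ∈ J, v i ∈ Icc lo hi) :
    ∃ h : X → ℝ, Continuous h ∧ (∀ x, h x ∈ Icc lo hi) ∧ ∀ i ∈ J, h (z i) = v i := by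
  classical
  set s : Set X := z '' (J : Set ι) with hs
  have hfin : s.Finite := (Finset.finite_toSet J).image z
  have : Finite s := hfin
  have hex : ∀ y : s, ∃ i ∈ J, z i = y := fun y => by
    obtain ⟨i, hi, h⟩ := y.2
    exact ⟨i, hi, h⟩
  choose e he hze using hex
  obtain ⟨g, hg1, hg2⟩ := ContinuousMap.exists_restrict_eq_forall_mem_of_closed
    (s := s) (⟨fun y => v (e y), continuous_of_discreteTopology⟩ : C(s, ℝ))
    (t := Icc lo hi) (fun y => hv _ (he y)) ⟨lo, left_mem_Icc.2 hlh⟩ hfin.isClosed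
  refine ⟨g, g.continuous, hg1, fun i hi => ?_⟩
  have h1 : z i ∈ s := ⟨i, hi, rfl⟩
  have h2 := congrArg (fun f : C(s, ℝ) => f ⟨z i, h1⟩) hg2
  have h3 : g (z i) = v (e ⟨z i, h1⟩) := h2
  rw [h3, hz (he ⟨z i, h1⟩) hi (hze ⟨z i, h1⟩)]

lemma patch (q : Ω → B) (hq : Function.Injective q) (a : Ω) (P : Ω → Ω × S → S)
    (hP : ∀ b < a, ∀ c, P b (b, c) = c) (f0 : B → S) (R : ℝ) (hR : 0 < R)
    {k : ℕ} (J : Finset (Fin k)) (x : Fin k → Ω × S) (hx : Function.Injective x)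
    (hxa : ∀ i ∈ J, (x i).1 < a) (t : Fin k → ℝ) (ht : ∀ i ∈ J, ∀ j ∈ J, |t i - t j| ≤ 3/4)
    (hxR : ∀ i ∈ J, dist (q (x i).1) (q a) < R) :
    ∃ (T : Ω × S → ℝ) (ρ : ℝ), 0 < ρ ∧ ρ ≤ R / 2 ∧
      (∀ y : Ω × S, R ≤ dist (q y.1) (q a) → T y = 0) ∧
      (∀ y : Ω × S, dist (q y.1) (q a) ≤ ρ → T y = 0) ∧
      (∀ b, ∃ r : ℝ, ∀ c, T (b, c) ∈ Icc r (r + 3/4)) ∧
      (∀ (x : Ω × S) (l : Filter (Ω × S)), Tendsto (fun y => q y.1) l (𝓝 (q x.1)) →
        (∀ b < a, Tendsto (P b) l (𝓝 (P b x))) → Tendsto T l (𝓝 (T x))) ∧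
      ∀ i ∈ J, f0 (q (x i).1) + ((T (x i) : ℝ) : S) = ((t i : ℝ) : S) := by
  classical
  set Ξ : Finset Ω := J.image (fun i => (x i).1) with hΞ
  have hΞa : ∀ ξ ∈ Ξ, ξ < a := by
    intro ξ hξ
    obtain ⟨i, hi, rfl⟩ := Finset.mem_image.1 hξ
    exact hxa i hi
  have hΞR : ∀ ξ ∈ Ξ, dist (q ξ) (q a) < R := by
    intro ξ hξ
    obtain ⟨i, hi, rfl⟩ := Finset.mem_image.1 hξ
    exact hxR i hi
  obtain ⟨ε1, hε1, h1⟩ := patch_pos Ξ.offDiag (fun p => dist (q p.1) (q p.2) / 2) (by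
    rintro ⟨b, c⟩ hbc
    rw [Finset.mem_offDiag] at hbc
    exact half_pos (dist_pos.2 (hq.ne hbc.2.2)))
  obtain ⟨ε2, hε2, h2⟩ := patch_pos Ξ (fun ξ => dist (q ξ) (q a) / 2) (by
    intro ξ hξ
    exact half_pos (dist_pos.2 (hq.ne (hΞa ξ hξ).ne)))
  obtain ⟨ε3, hε3, h3⟩ := patch_pos Ξ (fun ξ => R - dist (q ξ) (q a)) (by
    intro ξ hξ
    exact sub_pos.2 (hΞR ξ hξ))
  set ε : ℝ := min ε1 (min ε2 ε3) with hε
  have hε0 : 0 < ε := lt_min hε1 (lt_min hε2 hε3)
  have ha1 : ∀ ξ ∈ Ξ, ∀ ξ' ∈ Ξ, ξ ≠ ξ' → 2 * ε ≤ dist (q ξ) (q ξ') := by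
    intro ξ hξ ξ' hξ' hne
    have h4 := h1 (ξ, ξ') (Finset.mem_offDiag.2 ⟨hξ, hξ', hne⟩)
    have h5 : ε ≤ ε1 := min_le_left _ _
    simp only at h4
    linarith
  have ha2 : ∀ ξ ∈ Ξ, 2 * ε ≤ dist (q ξ) (q a) := by
    intro ξ hξ
    have h4 := h2 ξ hξ
    have h5 : ε ≤ ε2 := (min_le_right _ _).trans (min_le_left _ _)
    linarith
  have ha3 : ∀ ξ ∈ Ξ, dist (q ξ) (q a) + ε ≤ R := by
    intro ξ hξ
    have h4 := h3 ξ hξ
    have h5 : ε ≤ ε3 := (min_le_right _ _).trans (min_le_right _ _)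
    linarith
  have hsurj : Function.Surjective (fun r : ℝ => (r : S)) := QuotientAddGroup.mk_surjective
  set rp : S → ℝ := Function.surjInv hsurj with hrp
  have hrp' : ∀ s : S, ((rp s : ℝ) : S) = s := Function.surjInv_eq hsurj
  have hH : ∀ ξ : Ω, ∃ (h : S → ℝ) (m : ℝ), Continuous h ∧ (∀ s, h s ∈ Icc m (m + 3/4)) ∧
      ∀ i ∈ J, (x i).1 = ξ → h (x i).2 = t i - rp (f0 (q ξ)) := by
    intro ξ
    rcases (J.filter (fun i => (x i).1 = ξ)).eq_empty_or_nonempty with hem | hne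
    · refine ⟨fun _ => 0, 0, continuous_const, fun s => ⟨le_rfl, by norm_num⟩, ?_⟩
      intro i hi hxi
      have : i ∈ J.filter (fun i => (x i).1 = ξ) := Finset.mem_filter.2 ⟨hi, hxi⟩
      rw [hem] at this
      exact absurd this (Finset.notMem_empty i)
    · obtain ⟨i0, hi0, hmin⟩ := Finset.exists_min_image _ t hne
      rw [Finset.mem_filter] at hi0
      obtain ⟨h, hc, hr, hv⟩ := patch_interp (J.filter (fun i => (x i).1 = ξ))
        (fun i => (x i).2) (by
          intro i hi j hj hij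
          rw [Finset.mem_coe, Finset.mem_filter] at hi hj
          apply hx
          exact Prod.ext (hi.2.trans hj.2.symm) hij) (fun i => t i - rp (f0 (q ξ)))
        (t i0 - rp (f0 (q ξ))) (t i0 - rp (f0 (q ξ)) + 3/4) (by linarith) (by
          intro i hi
          have h4 := hmin i hi
          rw [Finset.mem_filter] at hi
          have h5 := abs_le.1 (ht i hi.1 i0 hi0.1)
          constructor
          · linarith
          · linarith [h5.2])
      exact ⟨h, _, hc, hr, fun i hi hxi => hv i (Finset.mem_filter.2 ⟨hi, hxi⟩)⟩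
  choose h m hc hr hv using hH
  set lam : Ω → B → ℝ := fun ξ z => max 0 (1 - dist z (q ξ) / ε) with hlam
  have hlam0 : ∀ ξ z, ε ≤ dist z (q ξ) → lam ξ z = 0 := by
    intro ξ z hz
    have : 1 ≤ dist z (q ξ) / ε := (one_le_div hε0).2 hz
    exact max_eq_left (by linarith)
  have hlamnn : ∀ ξ z, 0 ≤ lam ξ z := fun ξ z => le_max_left _ _
  have hlamle : ∀ ξ z, lam ξ z ≤ 1 := by
    intro ξ z
    apply max_le zero_le_one
    have : 0 ≤ dist z (q ξ) / ε := by positivity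
    linarith
  have hlam1 : ∀ ξ, lam ξ (q ξ) = 1 := by
    intro ξ
    simp only [hlam, dist_self, zero_div, sub_zero]
    exact max_eq_right zero_le_one
  refine ⟨fun y => ∑ ξ ∈ Ξ, lam ξ (q y.1) * h ξ (P ξ y), min ε (R / 2),
    lt_min hε0 (by positivity), min_le_right _ _, ?_, ?_, ?_, ?_, ?_⟩
  · intro y hy
    refine Finset.sum_eq_zero fun ξ hξ => ?_
    rw [hlam0 ξ _ ?_, zero_mul]
    have h4 := ha3 ξ hξ
    have h5 := dist_triangle (q y.1) (q ξ) (q a)
    linarith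
  · intro y hy
    refine Finset.sum_eq_zero fun ξ hξ => ?_
    rw [hlam0 ξ _ ?_, zero_mul]
    have h4 := ha2 ξ hξ
    have h5 := dist_triangle_left (q ξ) (q a) (q y.1)
    have h6 : dist (q y.1) (q a) ≤ ε := hy.trans (min_le_left _ _)
    linarith
  · intro b
    by_cases hb : ∃ ξ ∈ Ξ, dist (q b) (q ξ) < ε
    · obtain ⟨ξ, hξ, hbξ⟩ := hb
      refine ⟨lam ξ (q b) * m ξ, fun c => ?_⟩
      have h4 : ∑ ξ' ∈ Ξ, lam ξ' (q b) * h ξ' (P ξ' (b, c)) = lam ξ (q b) * h ξ (P ξ (b, c)) := by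
        refine Finset.sum_eq_single ξ (fun ξ' hξ' hne => ?_) (fun hn => absurd hξ hn)
        rw [hlam0 ξ' _ ?_, zero_mul]
        have h5 := ha1 ξ hξ ξ' hξ' (Ne.symm hne)
        have h6 := dist_triangle_left (q ξ) (q ξ') (q b)
        linarith
      change ∑ ξ' ∈ Ξ, lam ξ' (q b) * h ξ' (P ξ' (b, c)) ∈ _
      rw [h4]
      have h5 := hr ξ (P ξ (b, c))
      have h6 := hlamnn ξ (q b)
      have h7 := hlamle ξ (q b)
      constructor
      · exact mul_le_mul_of_nonneg_left h5.1 h6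
      · calc lam ξ (q b) * h ξ (P ξ (b, c)) ≤ lam ξ (q b) * (m ξ + 3/4) :=
            mul_le_mul_of_nonneg_left h5.2 h6
          _ ≤ lam ξ (q b) * m ξ + 3/4 := by nlinarith
    · push Not at hb
      refine ⟨0, fun c => ?_⟩
      have h4 : ∑ ξ' ∈ Ξ, lam ξ' (q b) * h ξ' (P ξ' (b, c)) = 0 := by
        refine Finset.sum_eq_zero fun ξ hξ => ?_
        rw [hlam0 ξ _ (hb ξ hξ), zero_mul]
      change ∑ ξ' ∈ Ξ, lam ξ' (q b) * h ξ' (P ξ' (b, c)) ∈ _
      rw [h4]
      constructor <;> norm_num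
  · intro y l hl hPl
    refine tendsto_finsetSum _ fun ξ hξ => ?_
    refine Tendsto.mul ?_ (((hc ξ).tendsto _).comp (hPl ξ (hΞa ξ hξ)))
    exact tendsto_const_nhds.max (tendsto_const_nhds.sub
      ((hl.dist tendsto_const_nhds).div_const ε))
  · intro i hi
    have hξ : (x i).1 ∈ Ξ := Finset.mem_image.2 ⟨i, hi, rfl⟩
    have h4 : ∑ ξ' ∈ Ξ, lam ξ' (q (x i).1) * h ξ' (P ξ' (x i)) = t i - rp (f0 (q (x i).1)) := by
      rw [Finset.sum_eq_single (x i).1]
      · rw [hlam1, one_mul]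
        have h5 : P (x i).1 (x i) = (x i).2 := hP (x i).1 (hxa i hi) (x i).2
        rw [h5]
        exact hv (x i).1 i hi rfl
      · intro ξ' hξ' hne
        rw [hlam0 ξ' _ ?_, zero_mul]
        have h5 := ha1 _ hξ ξ' hξ' (Ne.symm hne)
        linarith
      · intro hn
        exact absurd hξ hn
    simp only
    rw [h4]
    rw [AddCircle.coe_sub, hrp']
    abel

lemma fin_pos_lb {ι : Type*} (J : Finset ι) (g : ι → ℝ) (hg : ∀ i ∈ J, 0 < g i) (ρ : ℝ)
    (hρ : 0 < ρ) : ∃ r : ℝ, 0 < r ∧ r ≤ ρ ∧ ∀ i ∈ J, r < g i := by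
  classical
  induction J using Finset.induction_on with
  | empty => exact ⟨ρ, hρ, le_rfl, fun i hi => absurd hi (Finset.notMem_empty i)⟩
  | insert j J hj ih =>
    obtain ⟨r, h1, h2, h3⟩ := ih (fun i hi => hg i (Finset.mem_insert_of_mem hi))
    have hgj := hg j (Finset.mem_insert_self _ _)
    refine ⟨min r (g j / 2), lt_min h1 (by linarith), (min_le_left _ _).trans h2, ?_⟩
    intro i hi
    rcases Finset.mem_insert.mp hi with h | h
    · subst h
      exact (min_le_right _ _).trans_lt (by linarith)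
    · exact (min_le_left _ _).trans_lt (h3 i h)

lemma step_one (q : Ω → B) (hq : Function.Injective q) (a : Ω) (P : Ω → Ω × S → S)
    (hP : ∀ b < a, ∀ c, P b (b, c) = c) (f0 : B → S)
    (k : ℕ → ℕ) (J : ∀ m, Finset (Fin (k m))) (A : ∀ m, Set (Fin (k m) → Ω × S))
    (t : ∀ m, Fin (k m) → ℝ)
    (hA : ∀ m, ∀ x ∈ A m, Function.Injective x ∧ ∀ i ∈ J m, (x i).1 < a)
    (ht : ∀ m, ∀ i ∈ J m, ∀ j ∈ J m, |t m i - t m j| ≤ 3/4)
    (hd : ∀ m, ∀ ρ : ℝ, 0 < ρ → ∃ x ∈ A m, ∀ i ∈ J m, dist (q (x i).1) (q a) < ρ)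
    (m : ℕ) (R : {R : ℝ // 0 < R}) :
    ∃ (x : Fin (k m) → Ω × S) (T : Ω × S → ℝ) (R' : {R : ℝ // 0 < R}), R'.1 ≤ R.1 / 2 ∧
      x ∈ A m ∧ (∀ i ∈ J m, R'.1 < dist (q (x i).1) (q a) ∧ dist (q (x i).1) (q a) < R.1) ∧
      (∀ y : Ω × S, R.1 ≤ dist (q y.1) (q a) → T y = 0) ∧
      (∀ y : Ω × S, dist (q y.1) (q a) ≤ R'.1 → T y = 0) ∧
      (∀ b, ∃ r : ℝ, ∀ c, T (b, c) ∈ Icc r (r + 3/4)) ∧
      (∀ (x : Ω × S) (l : Filter (Ω × S)), Tendsto (fun y => q y.1) l (𝓝 (q x.1)) →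
        (∀ b < a, Tendsto (P b) l (𝓝 (P b x))) → Tendsto T l (𝓝 (T x))) ∧
      ∀ i ∈ J m, f0 (q (x i).1) + ((T (x i) : ℝ) : S) = ((t m i : ℝ) : S) := by
  obtain ⟨x, hx, hxd⟩ := hd m R.1 R.2
  obtain ⟨hinj, hlt⟩ := hA m x hx
  obtain ⟨T, ρ, hρ0, hρ, hT1, hT2, hosc, hconv, hval⟩ :=
    patch q hq a P hP f0 R.1 R.2 (J m) x hinj hlt (t m) (ht m) hxd
  have hpos : ∀ i ∈ J m, 0 < dist (q (x i).1) (q a) := by
    intro i hi
    rw [dist_pos]
    intro h
    exact (hlt i hi).ne (hq h)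
  obtain ⟨r, hr0, hrρ, hr⟩ := fin_pos_lb (J m) (fun i => dist (q (x i).1) (q a)) hpos ρ hρ0
  exact ⟨x, T, ⟨r, hr0⟩, hrρ.trans hρ, hx, fun i hi => ⟨hr i hi, hxd i hi⟩, hT1,
    fun y hy => hT2 y (hy.trans hrρ), hosc, hconv, hval⟩

lemma step (q : Ω → B) (hq : Function.Injective q) (a : Ω) (P : Ω → Ω × S → S)
    (hP : ∀ b < a, ∀ c, P b (b, c) = c) (f0 : B → S) (R0 : ℝ) (hR0 : 0 < R0)
    (k : ℕ → ℕ) (J : ∀ m, Finset (Fin (k m))) (A : ∀ m, Set (Fin (k m) → Ω × S))
    (t : ∀ m, Fin (k m) → ℝ)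
    (hA : ∀ m, ∀ x ∈ A m, Function.Injective x ∧ ∀ i ∈ J m, (x i).1 < a)
    (ht : ∀ m, ∀ i ∈ J m, ∀ j ∈ J m, |t m i - t m j| ≤ 3/4)
    (hd : ∀ m, ∀ ρ : ℝ, 0 < ρ → ∃ x ∈ A m, ∀ i ∈ J m, dist (q (x i).1) (q a) < ρ) :
    ∃ u : Ω × S → ℝ,
      (∀ y : Ω × S, R0 ≤ dist (q y.1) (q a) → u y = 0) ∧
      (∀ b, ∃ r : ℝ, ∀ c, u (b, c) ∈ Icc r (r + 3/4)) ∧
      (∀ x : Ω × S, x.1 ≠ a → ∀ l : Filter (Ω × S), Tendsto (fun y => q y.1) l (𝓝 (q x.1)) →
        (∀ b < a, Tendsto (P b) l (𝓝 (P b x))) → Tendsto u l (𝓝 (u x))) ∧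
      ∀ m, ∃ x ∈ A m, ∀ i ∈ J m, f0 (q (x i).1) + ((u (x i) : ℝ) : S) = ((t m i : ℝ) : S) := by
  classical
  choose X T' R' hR' hX hXd hT1 hT2 hosc hconv hval using
    step_one q hq a P hP f0 k J A t hA ht hd
  let rs : ℕ → {R : ℝ // 0 < R} := fun n => Nat.rec ⟨R0, hR0⟩ (fun m s => R' m s) n
  have hrs0 : (rs 0).1 = R0 := rfl
  have hrsS : ∀ m, rs (m + 1) = R' m (rs m) := fun m => rfl
  let R : ℕ → ℝ := fun m => (rs m).1
  let T : ℕ → Ω × S → ℝ := fun m => T' m (rs m)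
  let D : Ω × S → ℝ := fun y => dist (q y.1) (q a)
  have hRpos : ∀ m, 0 < R m := fun m => (rs m).2
  have hRS : ∀ m, R (m + 1) ≤ R m / 2 := fun m => hR' m (rs m)
  have hRanti : Antitone R := antitone_nat_of_succ_le fun m => by
    have := hRS m
    have := hRpos m
    linarith
  have hRpow : ∀ m, R m ≤ R0 * (1 / 2) ^ m := by
    intro m
    induction m with
    | zero => simp [R, hrs0]
    | succ m ih =>
      calc R (m + 1) ≤ R m / 2 := hRS m
        _ ≤ R0 * (1 / 2) ^ m / 2 := by linarith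
        _ = R0 * (1 / 2) ^ (m + 1) := by rw [pow_succ]; ring
  have hRex : ∀ d : ℝ, 0 < d → ∃ M, R M < d := by
    intro d hd'
    obtain ⟨M, hM⟩ := exists_pow_lt_of_lt_one (div_pos hd' hR0) (by norm_num : (1 / 2 : ℝ) < 1)
    refine ⟨M, (hRpow M).trans_lt ?_⟩
    rw [lt_div_iff₀ hR0] at hM
    linarith
  have hTa : ∀ m y, R m ≤ D y → T m y = 0 := fun m y => hT1 m (rs m) y
  have hTb : ∀ m y, D y ≤ R (m + 1) → T m y = 0 := fun m y => hT2 m (rs m) y
  -- at most one annulus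
  have hother : ∀ y m, R (m + 1) < D y → D y < R m → ∀ m', m' ≠ m → T m' y = 0 := by
    intro y m h1 h2 m' hne
    rcases lt_or_gt_of_ne hne with h | h
    · exact hTb m' y (h2.le.trans (hRanti (Nat.succ_le_of_lt h)))
    · exact hTa m' y ((hRanti (Nat.succ_le_of_lt h)).trans h1.le)
  have huniq : ∀ y m m', R (m + 1) < D y → D y < R m → R (m' + 1) < D y → D y < R m' →
      m' = m := by
    intro y m m' h1 h2 h3 h4
    by_contra hne
    rcases lt_or_gt_of_ne hne with h | h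
    · have := hRanti (Nat.succ_le_of_lt h)
      exact absurd (h3.trans h2) (not_lt.mpr this)
    · have := hRanti (Nat.succ_le_of_lt h)
      exact absurd (h1.trans h4) (not_lt.mpr this)
  let u : Ω × S → ℝ := fun y =>
    if h : ∃ m, R (m + 1) < D y ∧ D y < R m then T h.choose y else 0
  have hu1 : ∀ y m, R (m + 1) < D y → D y < R m → u y = T m y := by
    intro y m h1 h2
    have hex : ∃ m, R (m + 1) < D y ∧ D y < R m := ⟨m, h1, h2⟩
    have h3 : u y = T hex.choose y := dif_pos hex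
    rw [h3, huniq y m hex.choose h1 h2 hex.choose_spec.1 hex.choose_spec.2]
  have hu2 : ∀ y, (¬ ∃ m, R (m + 1) < D y ∧ D y < R m) → u y = 0 := fun y h => dif_neg h
  have hu3 : ∀ M y, R M ≤ D y → u y = ∑ m ∈ Finset.range M, T m y := by
    intro M y hM
    by_cases hex : ∃ m, R (m + 1) < D y ∧ D y < R m
    · obtain ⟨m, h1, h2⟩ := hex
      rw [hu1 y m h1 h2]
      have hmM : m < M := by
        by_contra hcon
        have := hRanti (not_lt.mp hcon)
        linarith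
      rw [Finset.sum_eq_single m]
      · intro m' _ hne
        exact hother y m h1 h2 m' hne
      · intro h
        exact absurd (Finset.mem_range.mpr hmM) h
    · rw [hu2 y hex]
      symm
      apply Finset.sum_eq_zero
      intro m _
      by_contra hne
      apply hex
      refine ⟨m, ?_, ?_⟩
      · by_contra h
        exact hne (hTb m y (not_lt.mp h))
      · by_contra h
        exact hne (hTa m y (not_lt.mp h))
  refine ⟨u, ?_, ?_, ?_, ?_⟩
  · intro y hy
    rw [hu3 0 y hy]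
    simp
  · intro b
    by_cases hex : ∃ m, R (m + 1) < dist (q b) (q a) ∧ dist (q b) (q a) < R m
    · obtain ⟨m, h1, h2⟩ := hex
      obtain ⟨r, hr⟩ := hosc m (rs m) b
      refine ⟨r, fun c => ?_⟩
      rw [hu1 (b, c) m h1 h2]
      exact hr c
    · refine ⟨0, fun c => ?_⟩
      rw [hu2 (b, c) hex]
      constructor <;> norm_num
  · intro x hxa l hl hlP
    have hDx : 0 < D x := by
      show 0 < dist (q x.1) (q a)
      rw [dist_pos]
      intro h
      exact hxa (hq h)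
    obtain ⟨M, hM⟩ := hRex (D x) hDx
    have hDt : Tendsto D l (𝓝 (D x)) := hl.dist tendsto_const_nhds
    have hev : ∀ᶠ y in l, R M < D y := hDt.eventually (lt_mem_nhds hM)
    have hsum : Tendsto (fun y => ∑ m ∈ Finset.range M, T m y) l
        (𝓝 (∑ m ∈ Finset.range M, T m x)) :=
      tendsto_finset_sum _ fun m _ => hconv m (rs m) x l hl hlP
    rw [hu3 M x hM.le]
    refine hsum.congr' ?_
    filter_upwards [hev] with y hy
    exact (hu3 M y hy.le).symm
  · intro m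
    refine ⟨X m (rs m), hX m (rs m), fun i hi => ?_⟩
    obtain ⟨h1, h2⟩ := hXd m (rs m) i hi
    rw [hu1 (X m (rs m) i) m h1 h2]
    exact hval m (rs m) i hi

abbrev Req (task : Ω → Σ k : ℕ, (ℕ → Fin k → Ω × S)) (a : Ω) : Type :=
  Σ ξ : Iio a, Finset (Fin (task ξ.1).1) ×
    (Fin (task ξ.1).1 → ↥(TopologicalSpace.countableBasis B)) ×
    (Fin (task ξ.1).1 → Option ↥(Iio a)) ×
    (Fin (task ξ.1).1 → ↥(TopologicalSpace.countableBasis S)) × (Fin (task ξ.1).1 → ℚ)

lemma req_countable (hc : ∀ a : Ω, (Iio a).Countable)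
    (task : Ω → Σ k : ℕ, (ℕ → Fin k → Ω × S)) (a : Ω) : Countable (Req task a) := by
  haveI : Countable ↥(Iio a) := (hc a).to_subtype
  haveI : Countable ↥(TopologicalSpace.countableBasis B) :=
    (TopologicalSpace.countable_countableBasis B).to_subtype
  haveI : Countable ↥(TopologicalSpace.countableBasis S) :=
    (TopologicalSpace.countable_countableBasis S).to_subtype
  unfold Req
  infer_instance

def ReqOK (q : Ω → B) (task : Ω → Σ k : ℕ, (ℕ → Fin k → Ω × S)) (a : Ω)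
    (P : Ω → Ω × S → S) (z : Req task a) : Prop :=
  (∀ i ∈ z.2.1, ∀ j ∈ z.2.1, |((z.2.2.2.2.2 i : ℚ) : ℝ) - ((z.2.2.2.2.2 j : ℚ) : ℝ)| ≤ 3/4) ∧
    ∀ ρ : ℝ, 0 < ρ → ∃ n, (task z.1.1).2 n ∈ W q P a z.2.1 (fun i => (z.2.2.1 i).1)
      (fun i => (z.2.2.2.1 i).map Subtype.val) (fun i => (z.2.2.2.2.1 i).1) ∧
      ∀ i ∈ z.2.1, dist (q ((task z.1.1).2 n i).1) (q a) < ρ

lemma se_aux (hc : ∀ a : Ω, (Iio a).Countable) (q : Ω → B) (hq : Function.Injective q)
    (task : Ω → Σ k : ℕ, (ℕ → Fin k → Ω × S)) (a : Ω) (P : Ω → Ω × S → S)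
    (hP : ∀ b < a, ∀ c, P b (b, c) = c) (f0 : B → S) (R0 : ℝ) (hR0 : 0 < R0) :
    ∃ u : Ω × S → ℝ,
      (∀ y : Ω × S, R0 ≤ dist (q y.1) (q a) → u y = 0) ∧
      (∀ b, ∃ r : ℝ, ∀ c, u (b, c) ∈ Icc r (r + 3/4)) ∧
      (∀ x : Ω × S, x.1 ≠ a → ∀ l : Filter (Ω × S), Tendsto (fun y => q y.1) l (𝓝 (q x.1)) →
        (∀ b < a, Tendsto (P b) l (𝓝 (P b x))) → Tendsto u l (𝓝 (u x))) ∧
      ∀ z : Req task a, ReqOK q task a P z →
        ∃ n, (task z.1.1).2 n ∈ W q P a z.2.1 (fun i => (z.2.2.1 i).1)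
          (fun i => (z.2.2.2.1 i).map Subtype.val) (fun i => (z.2.2.2.2.1 i).1) ∧
          ∀ i ∈ z.2.1, f0 (q ((task z.1.1).2 n i).1) + ((u ((task z.1.1).2 n i) : ℝ) : S) =
            ((((z.2.2.2.2.2 i : ℚ) : ℝ)) : S) := by
  haveI := req_countable hc task a
  by_cases hne : Nonempty {z : Req task a // ReqOK q task a P z}
  · obtain ⟨f, hf⟩ := exists_surjective_nat {z : Req task a // ReqOK q task a P z}
    obtain ⟨u, hu1, hu2, hu3, hu4⟩ := step q hq a P hP f0 R0 hR0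
      (fun m => (task (f m).1.1.1).1) (fun m => (f m).1.2.1)
      (fun m => W q P a (f m).1.2.1 (fun i => ((f m).1.2.2.1 i).1)
          (fun i => ((f m).1.2.2.2.1 i).map Subtype.val) (fun i => ((f m).1.2.2.2.2.1 i).1) ∩
          range (task (f m).1.1.1).2)
      (fun m i => (((f m).1.2.2.2.2.2 i : ℚ) : ℝ))
      (fun m x hx => ⟨hx.1.1, hx.1.2.1⟩)
      (fun m => (f m).2.1)
      (fun m ρ hρ => by
        obtain ⟨n, hn1, hn2⟩ := (f m).2.2 ρ hρ
        exact ⟨_, ⟨hn1, ⟨n, rfl⟩⟩, hn2⟩)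
    refine ⟨u, hu1, hu2, hu3, fun z hz => ?_⟩
    obtain ⟨m, hm⟩ := hf ⟨z, hz⟩
    have h := hu4 m
    rw [hm] at h
    obtain ⟨x, ⟨hx1, n, rfl⟩, hx2⟩ := h
    exact ⟨n, hx1, hx2⟩
  · refine ⟨fun _ => 0, fun _ _ => rfl, fun b => ⟨0, fun c => ⟨le_refl _, by norm_num⟩⟩,
      fun x _ l _ _ => tendsto_const_nhds, fun z hz => ?_⟩
    exact absurd ⟨⟨z, hz⟩⟩ hne

/-- one stage of the construction -/
lemma stage_exists (hc : ∀ a : Ω, (Iio a).Countable) (q : Ω → B) (hq : Function.Injective q)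
    (task : Ω → Σ k : ℕ, (ℕ → Fin k → Ω × S)) (a : Ω) (P : Ω → Ω × S → S)
    (hP : ∀ b < a, ∀ c, P b (b, c) = c) : ∃ G, StageOK q task a P G := by
  classical
  obtain ⟨R0, hR0, hRb⟩ : ∃ R0 : ℝ, 0 < R0 ∧ (q a ∉ bd → ∀ z ∈ bd, R0 ≤ dist z (q a)) := by
    by_cases h : q a ∈ bd
    · exact ⟨1, one_pos, fun h' => absurd h h'⟩
    · obtain ⟨ε, hε, hb⟩ := Metric.isOpen_iff.1 isClosed_bd.isOpen_compl (q a) h
      refine ⟨ε, hε, fun _ z hz => ?_⟩
      by_contra hlt
      push Not at hlt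
      exact hb (Metric.mem_ball.2 hlt) hz
  obtain ⟨u, hu1, hu2, hu3, hu4⟩ := se_aux hc q hq task a P hP (F0 (q a)) R0 hR0
  let G : Ω × S → S := fun y => if y.1 = a then y.2 else F0 (q a) (q y.1) + ((u y : ℝ) : S)
  have hGa : ∀ c, G (a, c) = c := fun c => if_pos rfl
  have hGn : ∀ y : Ω × S, y.1 ≠ a → G y = F0 (q a) (q y.1) + ((u y : ℝ) : S) :=
    fun y hy => if_neg hy
  refine ⟨G, hGa, ?_, ?_, ?_, ?_⟩
  · intro x hx l hl hPl
    have hqx : q x.1 ≠ q a := fun h => hx (hq h)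
    have hev : ∀ᶠ y in l, (F0 (q a) (q y.1) + ((u y : ℝ) : S)) = G y := by
      have h1 : ∀ᶠ y in l, q y.1 ≠ q a := hl.eventually (isOpen_ne.mem_nhds hqx)
      filter_upwards [h1] with y hy
      exact (hGn y (fun h => hy (by rw [h]))).symm
    rw [hGn x hx]
    refine Tendsto.congr' hev ?_
    apply Tendsto.add
    · exact (F0_cont (q a) (q x.1) hqx).tendsto.comp hl
    · have h2 : Continuous (fun r : ℝ => (r : S)) := AddCircle.continuous_mk' 1
      exact (h2.tendsto (u x)).comp (hu3 x hx l hl hPl)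
  · intro b hb
    obtain ⟨r, hr⟩ := hu2 b
    obtain ⟨y0, hy0⟩ := QuotientAddGroup.mk_surjective (F0 (q a) (q b))
    refine ⟨y0 + r, fun c => ⟨y0 + u (b, c), ⟨by linarith [(hr c).1], by linarith [(hr c).2]⟩, ?_⟩⟩
    rw [hGn (b, c) hb]
    show F0 (q a) (q b) + _ = _
    rw [← hy0]
    rfl
  · intro ha b c hb
    have hba : b ≠ a := by
      rintro rfl
      exact ha hb
    rw [hGn (b, c) hba, hu1 (b, c) (hRb ha (q b) hb)]
    show F0 (q a) (q b) + _ = _
    rw [F0_bd (q a) (q b) ha hb]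
    have h0 : ((0 : ℝ) : S) = 0 := rfl
    rw [h0, add_zero]
  · intro ξ hξ J V s N t hV hN hs ht hρ
    have hs' : ∀ i, ∃ o : Option ↥(Iio a), o.map Subtype.val = s i := by
      intro i
      cases hsi : s i with
      | none => exact ⟨none, rfl⟩
      | some b => exact ⟨some ⟨b, hs i b hsi⟩, rfl⟩
    choose s' hs' using hs'
    have hs'' : (fun i => (s' i).map Subtype.val) = s := funext hs'
    obtain ⟨n, hn1, hn2⟩ := hu4 ⟨⟨ξ, hξ⟩, J, fun i => ⟨V i, hV i⟩, s', fun i => ⟨N i, hN i⟩, t⟩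
      ⟨ht, by
        intro ρ hρ0
        obtain ⟨n, hn1, hn2⟩ := hρ ρ hρ0
        refine ⟨n, ?_, hn2⟩
        show (task ξ).2 n ∈ W q P a J V (fun i => (s' i).map Subtype.val) N
        rw [hs'']
        exact hn1⟩
    have hn1' : (task ξ).2 n ∈ W q P a J V (fun i => (s' i).map Subtype.val) N := hn1
    rw [hs''] at hn1'
    refine ⟨n, hn1', fun i hi => ?_⟩
    rw [hGn _ (hn1'.2.1 i hi).ne]
    exact hn2 i hi

lemma W_congr (q : Ω → B) (P P' : Ω → Ω × S → S) (a : Ω) (h : ∀ b < a, P b = P' b)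
    {k : ℕ} (J : Finset (Fin k)) (V : Fin k → Set B)
    (s : Fin k → Option Ω) (N : Fin k → Set S) (hs : ∀ i b, s i = some b → b < a) :
    W q P a J V s N = W q P' a J V s N := by
  ext x
  unfold W
  constructor
  · rintro ⟨h1, h2, h3, h4⟩
    refine ⟨h1, h2, h3, fun i b hib => ?_⟩
    rw [← h b (hs i b hib)]
    exact h4 i b hib
  · rintro ⟨h1, h2, h3, h4⟩
    refine ⟨h1, h2, h3, fun i b hib => ?_⟩
    rw [h b (hs i b hib)]
    exact h4 i b hib

lemma stage_congr (q : Ω → B) (task : Ω → Σ k : ℕ, (ℕ → Fin k → Ω × S)) (a : Ω)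
    (P P' : Ω → Ω × S → S) (h : ∀ b < a, P b = P' b) (G : Ω × S → S)
    (hG : StageOK q task a P G) : StageOK q task a P' G := by
  refine ⟨hG.diag, ?_, hG.osc, hG.bdry, ?_⟩
  · intro x hx l hl hb
    refine hG.conv x hx l hl fun b hba => ?_
    rw [h b hba]
    exact hb b hba
  · intro ξ hξ J V s N t hV hN hs hJ hρ
    have hW := W_congr q P P' a h J V s N hs
    rw [← hW] at hρ ⊢
    exact hG.gen ξ hξ J V s N t hV hN hs hJ hρ

theorem exists_good [WellFoundedLT Ω] (hc : ∀ a : Ω, (Iio a).Countable) (q : Ω → B)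
    (hq : Function.Injective q) (task : Ω → Σ k : ℕ, (ℕ → Fin k → Ω × S)) :
    ∃ F : Ω → Ω × S → S, Good q task F := by
  classical
  let step : (a : Ω) → ((b : Ω) → b < a → Ω × S → S) → Ω × S → S := fun a prev =>
    if h : ∃ G, StageOK q task a (fun b => if hb : b < a then prev b hb else fun x => x.2) G
    then h.choose else fun x => x.2
  let F : Ω → Ω × S → S := (wellFounded_lt (α := Ω)).fix step
  have hF : ∀ a, F a = step a (fun b _ => F b) := fun a =>
    WellFounded.fix_eq _ _ _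
  refine ⟨F, ?_⟩
  intro a
  induction a using (wellFounded_lt (α := Ω)).induction with
  | _ a ih =>
    have hex : ∃ G, StageOK q task a (fun b => if hb : b < a then F b else fun x => x.2) G := by
      refine stage_exists hc q hq task a _ fun b hb c => ?_
      show (if hb : b < a then F b else fun x : Ω × S => x.2) (b, c) = c
      rw [dif_pos hb]
      exact (ih b hb).diag c
    have hFa : F a = hex.choose := by
      rw [hF a]
      exact dif_pos hex
    have h1 := hex.choose_spec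
    rw [← hFa] at h1
    refine stage_congr q task a _ F (fun b hb => ?_) _ h1
    exact dif_pos hb

end CFib
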