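import Mathlib
import Pool.Agent.Helper416.CFib.Base

open Set Filter Topology

noncomputable section

namespace CFib

variable {Ω : Type} [LinearOrder Ω]

theorem ch_mk_S : Cardinal.mk S = Cardinal.continuum := by
  have h : Fact ((0:ℝ) < 1) := ⟨one_pos⟩
  rw [Cardinal.mk_congr (AddCircle.equivIco (1:ℝ) 0)]
  have : Cardinal.mk (Ico (0:ℝ) (0+1)) = Cardinal.continuum := Cardinal.mk_Ico_real (by norm_num)
  exact this

theorem ch_mk_B : Cardinal.mk B = Cardinal.continuum := by
  have h1 : Cardinal.mk unitInterval = Cardinal.continuum := Cardinal.mk_Icc_real (by norm_num)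
  show Cardinal.mk (unitInterval × unitInterval) = _
  simp only [Cardinal.mk_prod, Cardinal.lift_id]
  rw [h1, Cardinal.continuum_mul_self]

theorem ch_data (hCH : Cardinal.aleph 1 = Cardinal.continuum.{0}) :
    ∃ (Ω : Type) (_ : LinearOrder Ω) (_ : WellFoundedLT Ω), (∀ a : Ω, (Iio a).Countable) ∧
      ¬ Countable Ω ∧ (∃ q : Ω → B, Function.Bijective q) ∧
      ∃ task : Ω → Σ k : ℕ, (ℕ → Fin k → Ω × S), Function.Surjective task := by
  have hΩ : Cardinal.mk ((Cardinal.aleph.{0} 1).ord.ToType) = Cardinal.continuum := by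
    rw [Cardinal.mk_ord_toType, hCH]
  refine ⟨(Cardinal.aleph.{0} 1).ord.ToType, inferInstance, inferInstance, ?_, ?_, ?_, ?_⟩
  · intro a
    have h := Cardinal.mk_Iio_ord_toType a
    rw [← Cardinal.le_aleph0_iff_set_countable]
    have h2 : Cardinal.mk (Iio a) < Order.succ Cardinal.aleph0 := lt_of_lt_of_eq h Cardinal.succ_aleph0.symm
    exact Order.lt_succ_iff.1 h2
  · intro hc
    have h1 := Cardinal.mk_le_aleph0_iff.2 hc
    rw [hΩ] at h1
    exact absurd Cardinal.aleph0_lt_continuum (not_lt.2 h1)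
  · have h : Cardinal.mk ((Cardinal.aleph.{0} 1).ord.ToType) = Cardinal.mk B := by rw [hΩ, ch_mk_B]
    obtain ⟨e⟩ := Cardinal.eq.1 h
    exact ⟨e, e.bijective⟩
  · have hle : Cardinal.mk (Σ k : ℕ, (ℕ → Fin k → (Cardinal.aleph.{0} 1).ord.ToType × S))
        ≤ Cardinal.mk ((Cardinal.aleph.{0} 1).ord.ToType) := by
      rw [Cardinal.mk_sigma, hΩ]
      have hk : ∀ k : ℕ, Cardinal.mk (ℕ → Fin k → (Cardinal.aleph.{0} 1).ord.ToType × S)
          ≤ Cardinal.continuum := by
        intro k
        have e : (ℕ → Fin k → (Cardinal.aleph.{0} 1).ord.ToType × S)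
            ≃ (ℕ × Fin k → (Cardinal.aleph.{0} 1).ord.ToType × S) := (Equiv.curry _ _ _).symm
        have hp : Cardinal.mk ((Cardinal.aleph.{0} 1).ord.ToType × S) = Cardinal.continuum := by
          simp only [Cardinal.mk_prod, Cardinal.lift_id]
          rw [hΩ, ch_mk_S, Cardinal.continuum_mul_self]
        rw [Cardinal.mk_congr e, ← Cardinal.power_def, hp]
        calc Cardinal.continuum ^ Cardinal.mk (ℕ × Fin k)
            ≤ Cardinal.continuum ^ Cardinal.aleph0 :=
              Cardinal.power_le_power_left Cardinal.continuum_ne_zero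
                (Cardinal.mk_le_aleph0_iff.2 inferInstance)
          _ = Cardinal.continuum := Cardinal.continuum_power_aleph0
      calc Cardinal.sum (fun k : ℕ => Cardinal.mk (ℕ → Fin k → (Cardinal.aleph.{0} 1).ord.ToType × S))
          ≤ Cardinal.sum (fun _ : ℕ => Cardinal.continuum.{0}) := Cardinal.sum_le_sum _ _ hk
        _ = Cardinal.aleph0 * Cardinal.continuum := by simp
        _ = Cardinal.continuum := Cardinal.aleph0_mul_continuum
    obtain ⟨f⟩ := (Cardinal.le_def _ _).1 hle
    haveI : Nonempty (Σ k : ℕ, (ℕ → Fin k → (Cardinal.aleph.{0} 1).ord.ToType × S)) :=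
      ⟨⟨0, fun _ i => i.elim0⟩⟩
    exact ⟨Function.invFun f, Function.invFun_surjective f.injective⟩

end CFib
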