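import Mathlib
import Pool.Agent.Helper416.CFib.Base

open Set Filter Topology

noncomputable section

namespace CFib

variable {Ω : Type} [LinearOrder Ω]

section secC
variable {q : Ω → B} {task : Ω → Σ k : ℕ, (ℕ → Fin k → Ω × S)} {F : Ω → Ω × S → S}

lemma tendsto_all [WellFoundedLT Ω] (hF : Good q task F) (x : Ω × S) (l : Filter (Ω × S))
    (h1 : Tendsto (fun y => q y.1) l (𝓝 (q x.1))) (h2 : Tendsto (F x.1) l (𝓝 x.2)) (a : Ω) :
    Tendsto (F a) l (𝓝 (F a x)) := by
  induction a using WellFoundedLT.induction with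
  | ind a ih =>
    by_cases h : x.1 = a
    · subst h
      have : F x.1 x = x.2 := (hF x.1).diag x.2
      rw [this]; exact h2
    · exact (hF a).conv x h l h1 ih

lemma XT_tendsto_iff (x : Ω × S) {Z : Type*} (f : Z → Ω × S) (l : Filter Z) :
    Tendsto f l (@nhds (XT q F) _ x) ↔ Tendsto (fun z => q (f z).1) l (𝓝 (q x.1)) ∧
      ∀ a, Tendsto (fun z => F a (f z)) l (𝓝 (F a x)) := by
  have h : @nhds (XT q F) _ x = comap (fun x : Ω × S => (q x.1, fun a => F a x))
      (𝓝 (q x.1, fun a => F a x)) := nhds_induced _ _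
  rw [h, tendsto_comap_iff, nhds_prod_eq, tendsto_prod_iff']
  refine and_congr Iff.rfl ?_
  rw [nhds_pi, tendsto_pi]
  rfl

lemma nhds_XT [WellFoundedLT Ω] (hF : Good q task F) (x : Ω × S) :
    @nhds (XT q F) _ x = comap (fun y : Ω × S => q y.1) (𝓝 (q x.1)) ⊓ comap (F x.1) (𝓝 x.2) := by
  have hd : F x.1 x = x.2 := (hF x.1).diag x.2
  apply le_antisymm
  · have h := (XT_tendsto_iff (q := q) (F := F) x (fun y : Ω × S => y) (@nhds (XT q F) _ x)).1 tendsto_id
    refine le_inf ?_ ?_
    · exact h.1.le_comap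
    · have h2 := h.2 x.1
      rw [hd] at h2
      exact h2.le_comap
  · have h1 : Tendsto (fun y : Ω × S => q y.1)
        (comap (fun y : Ω × S => q y.1) (𝓝 (q x.1)) ⊓ comap (F x.1) (𝓝 x.2)) (𝓝 (q x.1)) :=
      tendsto_comap.mono_left inf_le_left
    have h2 : Tendsto (F x.1)
        (comap (fun y : Ω × S => q y.1) (𝓝 (q x.1)) ⊓ comap (F x.1) (𝓝 x.2)) (𝓝 x.2) :=
      tendsto_comap.mono_left inf_le_right
    exact (XT_tendsto_iff (q := q) (F := F) x (fun y : Ω × S => y) _).2
      ⟨h1, fun a => tendsto_all hF x _ h1 h2 a⟩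

lemma cont_proj : Continuous (fun x : XT q F => q (Prod.fst (α := Ω) (β := S) x)) := by
  have h : Continuous (fun x : XT q F => ((q (Prod.fst (α := Ω) (β := S) x), fun a => F a x) :
      B × (Ω → S))) := continuous_induced_dom
  exact continuous_fst.comp h

lemma cont_coord (a : Ω) : Continuous (fun x : XT q F => F a x) := by
  have h : Continuous (fun x : XT q F => ((q (Prod.fst (α := Ω) (β := S) x), fun a => F a x) :
      B × (Ω → S))) := continuous_induced_dom
  exact (continuous_apply a).comp (continuous_snd.comp h)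

lemma cont_fibre [WellFoundedLT Ω] (hF : Good q task F) (b : Ω) :
    @Continuous S (XT q F) _ _ (fun c : S => ((b, c) : Ω × S)) := by
  refine continuous_iff_continuousAt.2 fun c => ?_
  have h1 : Tendsto (fun z : S => q ((fun c : S => ((b, c) : Ω × S)) z).1) (𝓝 c) (𝓝 (q b)) :=
    tendsto_const_nhds
  have h2 : Tendsto (fun z : S => F b (b, z)) (𝓝 c) (𝓝 c) := by
    have : (fun z : S => F b (b, z)) = id := by
      funext z; exact (hF b).diag z
    rw [this]; exact tendsto_id
  have key : Tendsto (fun c : S => ((b, c) : Ω × S)) (𝓝 c) (@nhds (XT q F) _ (b, c)) := by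
    rw [nhds_XT hF (b, c), tendsto_inf, tendsto_comap_iff, tendsto_comap_iff]
    exact ⟨h1, h2⟩
  exact key

end secC

section secC
variable {q : Ω → B} {task : Ω → Σ k : ℕ, (ℕ → Fin k → Ω × S)} {F : Ω → Ω × S → S}

lemma compact_XT [WellFoundedLT Ω] (hF : Good q task F) (hq : Function.Bijective q) :
    CompactSpace (XT q F) := by
  constructor
  rw [isCompact_iff_ultrafilter_le_nhds]
  intro U _
  obtain ⟨z, -, hz⟩ := (isCompact_univ : IsCompact (univ : Set B)).ultrafilter_le_nhds
    (U.map (fun y : Ω × S => q y.1)) (by simp)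
  obtain ⟨σ, rfl⟩ := hq.2 z
  obtain ⟨c, -, hc⟩ := (isCompact_univ : IsCompact (univ : Set S)).ultrafilter_le_nhds
    (U.map (F σ)) (by simp)
  refine ⟨((σ, c) : Ω × S), mem_univ _, ?_⟩
  rw [nhds_XT hF]
  exact le_inf (tendsto_iff_comap.mp hz) (tendsto_iff_comap.mp hc)

lemma t2_XT (hF : Good q task F) (hq : Function.Injective q) : T2Space (XT q F) := by
  refine T2Space.of_injective_continuous
    (f := fun x : XT q F => ((q (Prod.fst (α := Ω) (β := S) x), fun a => F a x) : B × (Ω → S))) ?_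
    continuous_induced_dom
  intro x y hxy
  have h1 : Prod.fst (α := Ω) (β := S) x = Prod.fst (α := Ω) (β := S) y :=
    hq (congrArg Prod.fst hxy)
  have h2 : ∀ a, F a x = F a y := fun a => congrFun (congrArg Prod.snd hxy) a
  obtain ⟨σ, c⟩ := x
  obtain ⟨τ, d⟩ := y
  have h3 : σ = τ := h1
  subst h3
  have h4 : F σ (σ, c) = F σ (σ, d) := h2 σ
  rw [(hF σ).diag c, (hF σ).diag d] at h4
  rw [h4]

lemma fibre_preconn [WellFoundedLT Ω] (hF : Good q task F) (hq : Function.Bijective q) (z : B) :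
    IsPreconnected ((fun x : XT q F => q (Prod.fst (α := Ω) (β := S) x)) ⁻¹' {z}) := by
  obtain ⟨b, rfl⟩ := hq.2 z
  have h1 : ((fun x : XT q F => q (Prod.fst (α := Ω) (β := S) x)) ⁻¹' {q b})
      = Set.range (fun c : S => (((b, c) : Ω × S) : XT q F)) := by
    ext x
    constructor
    · intro hx
      have h2 : Prod.fst (α := Ω) (β := S) x = b := hq.1 hx
      refine ⟨Prod.snd (α := Ω) (β := S) x, ?_⟩
      obtain ⟨σ, c⟩ := x
      have h3 : σ = b := h2
      subst h3
      rfl
    · rintro ⟨c, rfl⟩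
      rfl
  rw [h1]
  exact isPreconnected_range (cont_fibre hF b)

end secC

end CFib
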