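import Mathlib
import Pool.Agent.Helper416.CFib.Space

open Set Filter Topology

noncomputable section

namespace CFib

variable {Ω : Type} [LinearOrder Ω]

/-- on the circle a continuous real function takes all its values on an arc of length `1/2` -/
lemma circle_ivt (g : S → ℝ) (hg : Continuous g) :
    ∃ m : ℝ, ∀ z : S, ∃ τ ∈ Icc m (m + 1/2), g ((τ : ℝ) : S) = g z := by
  haveI : Fact ((0 : ℝ) < 1) := ⟨one_pos⟩
  obtain ⟨u0, -, hu0⟩ := isCompact_univ.exists_isMinOn (univ_nonempty (α := S)) hg.continuousOn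
  obtain ⟨v0, -, hv0⟩ := isCompact_univ.exists_isMaxOn (univ_nonempty (α := S)) hg.continuousOn
  obtain ⟨a, rfl⟩ := QuotientAddGroup.mk_surjective u0
  obtain ⟨b', rfl⟩ := QuotientAddGroup.mk_surjective v0
  obtain ⟨b, hb⟩ : ∃ b : ℝ, b = b' - round (b' - a) := ⟨_, rfl⟩
  have hbb : ((b : ℝ) : S) = ((b' : ℝ) : S) := by
    have h0 : (((round (b' - a) : ℤ) : ℝ) : S) = 0 :=
      AddCircle.coe_eq_zero_iff (1 : ℝ) |>.mpr ⟨round (b' - a), by simp⟩
    rw [hb, AddCircle.coe_sub, h0, sub_zero]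
  have hab : |b - a| ≤ 1 / 2 := by
    have h := abs_sub_round (b' - a)
    have e : b - a = b' - a - round (b' - a) := by rw [hb]; ring
    rw [e]
    exact h
  have hc : Continuous (fun t : ℝ => g (t : S)) := hg.comp continuous_quotient_mk'
  refine ⟨min a b, fun z => ?_⟩
  have h1 : g ((a : ℝ) : S) ≤ g z := hu0 (mem_univ z)
  have h2 : g z ≤ g ((b : ℝ) : S) := by rw [hbb]; exact hv0 (mem_univ z)
  have h3 : g z ∈ uIcc (g ((a : ℝ) : S)) (g ((b : ℝ) : S)) := mem_uIcc.mpr (Or.inl ⟨h1, h2⟩)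
  obtain ⟨τ, hτ, hτ2⟩ := intermediate_value_uIcc (a := a) (b := b)
    (f := fun t : ℝ => g (t : S)) hc.continuousOn h3
  refine ⟨τ, ⟨?_, ?_⟩, hτ2⟩
  · exact hτ.1
  · have h4 : max a b - min a b = |b - a| := max_sub_min_eq_abs a b
    have h5 : τ ≤ max a b := hτ.2
    linarith

lemma bounded_of_countable (hc : ∀ a : Ω, (Iio a).Countable) (hu : ¬ Countable Ω) (C : Set Ω)
    (hC : C.Countable) : ∃ δ : Ω, ∀ c ∈ C, c < δ := by
  by_contra h
  push Not at h
  apply hu
  have h1 : (⋃ c ∈ C, Iic c).Countable := by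
    refine hC.biUnion fun c _ => ?_
    rw [← Set.Iio_insert]
    exact (hc c).insert c
  have h2 : (⋃ c ∈ C, Iic c) = Set.univ := by
    apply Set.eq_univ_of_forall
    intro x
    obtain ⟨c, hc1, hc2⟩ := h x
    exact Set.mem_biUnion hc1 hc2
  rw [h2] at h1
  exact Set.countable_univ_iff.mp h1

lemma close_off_countable (hc : ∀ a : Ω, (Iio a).Countable) (k : ℕ) (a : Ω) :
    {s : Fin k → Option Ω | ∀ i b, s i = some b → b < a}.Countable := by
  haveI : Countable (Iio a) := (hc a).to_subtype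
  have h1 : (Set.range (fun (f : Fin k → Option (Iio a)) (i : Fin k) =>
      (f i).map (fun y : Iio a => (y : Ω)))).Countable := Set.countable_range _
  refine h1.mono ?_
  intro s hs
  refine ⟨fun i => match h : s i with
    | none => none
    | some b => some ⟨b, hs i b h⟩, ?_⟩
  funext i
  dsimp only
  split
  · rename_i h; simp [h]
  · rename_i b h; simp [h]

lemma close_off_step (hc : ∀ a : Ω, (Iio a).Countable) (hu : ¬ Countable Ω) (k : ℕ)
    (e : (Fin k → Option Ω) → Ω) (a : Ω) :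
    ∃ d : Ω, a < d ∧ ∀ s : Fin k → Option Ω, (∀ i b, s i = some b → b < a) → e s < d := by
  obtain ⟨d, hd⟩ := bounded_of_countable hc hu
    ({a} ∪ e '' {s : Fin k → Option Ω | ∀ i b, s i = some b → b < a})
    ((Set.countable_singleton a).union ((close_off_countable hc k a).image e))
  exact ⟨d, hd a (Or.inl rfl), fun s hs => hd (e s) (Or.inr ⟨s, hs, rfl⟩)⟩

/-- closing off -/
lemma close_off [WellFoundedLT Ω] (hc : ∀ a : Ω, (Iio a).Countable) (hu : ¬ Countable Ω) (k : ℕ)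
    (e : (Fin k → Option Ω) → Ω) :
    ∃ δ : Ω, ∀ s : Fin k → Option Ω, (∀ i b, s i = some b → b < δ) → e s < δ := by
  choose g hg1 hg2 using close_off_step hc hu k e
  obtain ⟨d0, -⟩ := bounded_of_countable hc hu ∅ Set.countable_empty
  obtain ⟨D, hD0, hDs⟩ : ∃ D : ℕ → Ω, D 0 = d0 ∧ ∀ n, D (n+1) = g (D n) :=
    ⟨fun n => Nat.rec d0 (fun _ x => g x) n, rfl, fun n => rfl⟩
  have hmono : StrictMono D := strictMono_nat_of_lt_succ fun n => by
    rw [hDs]; exact hg1 _
  have hne : {x : Ω | ∀ n, D n < x}.Nonempty := by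
    obtain ⟨d, hd⟩ := bounded_of_countable hc hu (Set.range D) (Set.countable_range D)
    exact ⟨d, fun n => hd _ ⟨n, rfl⟩⟩
  have hwf : WellFounded (fun x y : Ω => x < y) := wellFounded_lt
  obtain ⟨d, hd, hdmin⟩ : ∃ d ∈ {x : Ω | ∀ n, D n < x}, ∀ x ∈ {x : Ω | ∀ n, D n < x}, ¬ x < d :=
    hwf.has_min _ hne
  refine ⟨d, fun s hs => ?_⟩
  have h1 : ∀ i, ∃ n, ∀ b, s i = some b → b < D n := by
    intro i
    rcases h : s i with _ | b
    · exact ⟨0, fun b hb => by simp at hb⟩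
    · have hb := hs i b h
      have h2 : ¬ ∀ n, D n < b := fun h3 => hdmin b h3 hb
      push Not at h2
      obtain ⟨n, hn⟩ := h2
      refine ⟨n+1, fun b' hb' => ?_⟩
      simp only [Option.some.injEq] at hb'
      rw [← hb']
      exact lt_of_le_of_lt hn (hmono (Nat.lt_succ_self n))
  choose n hn using h1
  have h2 : ∀ i b, s i = some b → b < D (Finset.univ.sup n) := by
    intro i b hb
    exact lt_of_lt_of_le (hn i b hb) (hmono.monotone (Finset.le_sup (Finset.mem_univ i)))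
  have h3 := hg2 _ s h2
  rw [← hDs] at h3
  exact h3.trans (hd _)

/-- every set of tuples has a countable sequence dense with respect to `q` and the coordinates
`F b`, `b` in the range of `s` -/
lemma dense_seq (q : Ω → B) (F : Ω → Ω × S → S) (k : ℕ) (E : Set (Fin k → Ω × S))
    (hE : E.Nonempty) (s : Fin k → Option Ω) :
    ∃ r : ℕ → Fin k → Ω × S, (∀ n, r n ∈ E) ∧
      ∀ (V : Fin k → Set B) (N : Fin k → Set S), (∀ i, IsOpen (V i)) → (∀ i, IsOpen (N i)) →
        (∃ x ∈ E, (∀ i, q (x i).1 ∈ V i) ∧ ∀ i b, s i = some b → F b (x i) ∈ N i) →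
        ∃ n, (∀ i, q (r n i).1 ∈ V i) ∧ ∀ i b, s i = some b → F b (r n i) ∈ N i := by
  obtain ⟨Θ, hΘ⟩ : ∃ Θ : (Fin k → Ω × S) → Fin k → B × S, ∀ x i, Θ x i =
      (q (x i).1, match s i with | none => 0 | some b => F b (x i)) := ⟨_, fun _ _ => rfl⟩
  have hΘ1 : ∀ x i, (Θ x i).1 = q (x i).1 := by intro x i; rw [hΘ]
  have hΘ2 : ∀ x i b, s i = some b → (Θ x i).2 = F b (x i) := by
    intro x i b hb; rw [hΘ]; simp only [hb]
  haveI : Nonempty ↥(Θ '' E) := (hE.image Θ).to_subtype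
  obtain ⟨u, hu⟩ := TopologicalSpace.exists_dense_seq ↥(Θ '' E)
  have hex : ∀ n, ∃ x ∈ E, Θ x = (u n : Fin k → B × S) := fun n => (u n).2
  choose r hrE hr using hex
  refine ⟨r, hrE, ?_⟩
  rintro V N hV hN ⟨x, hxE, hx1, hx2⟩
  obtain ⟨N', hN'⟩ : ∃ N' : Fin k → Set S, (∀ i, s i = none → N' i = univ) ∧
      (∀ i b, s i = some b → N' i = N i) := by
    refine ⟨fun i => match s i with | none => univ | some _ => N i, ?_, ?_⟩
    · intro i hi; simp only [hi]
    · intro i b hi; simp only [hi]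
  have hN'o : ∀ i, IsOpen (N' i) := by
    intro i
    cases hs : s i with
    | none => rw [hN'.1 i hs]; exact isOpen_univ
    | some b => rw [hN'.2 i b hs]; exact hN i
  have hO : IsOpen (Set.pi Set.univ (fun i => V i ×ˢ N' i)) :=
    isOpen_set_pi Set.finite_univ fun i _ => (hV i).prod (hN'o i)
  have hO' : IsOpen ((Subtype.val : ↥(Θ '' E) → (Fin k → B × S)) ⁻¹'
      (Set.pi Set.univ (fun i => V i ×ˢ N' i))) := hO.preimage continuous_subtype_val
  have hne : ((Subtype.val : ↥(Θ '' E) → (Fin k → B × S)) ⁻¹'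
      (Set.pi Set.univ (fun i => V i ×ˢ N' i))).Nonempty := by
    refine ⟨⟨Θ x, x, hxE, rfl⟩, ?_⟩
    intro i _
    refine ⟨?_, ?_⟩
    · show (Θ x i).1 ∈ V i
      rw [hΘ1]; exact hx1 i
    · show (Θ x i).2 ∈ N' i
      cases hs : s i with
      | none => rw [hN'.1 i hs]; exact mem_univ _
      | some b => rw [hN'.2 i b hs, hΘ2 x i b hs]; exact hx2 i b hs
  obtain ⟨n, hn⟩ := hu.exists_mem_open hO' hne
  have hn' : ∀ i, Θ (r n) i ∈ V i ×ˢ N' i := by
    intro i
    rw [hr n]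
    exact hn i (mem_univ i)
  refine ⟨n, fun i => ?_, fun i b hb => ?_⟩
  · have := (hn' i).1
    rwa [hΘ1] at this
  · have := (hn' i).2
    rwa [hΘ2 _ i b hb, hN'.2 i b hb] at this

lemma climb_rat (x : ℝ) (N : Set S) (hN : IsOpen N) (hx : (x : S) ∈ N) :
    ∃ t : ℚ, |((t : ℚ) : ℝ) - x| ≤ 1/8 ∧ (((t : ℚ) : ℝ) : S) ∈ N := by
  have hc : Continuous (fun y : ℝ => (y : S)) := AddCircle.continuous_mk' (1:ℝ)
  have ho : IsOpen ((fun y : ℝ => (y : S)) ⁻¹' N ∩ Metric.ball x (1/8)) :=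
    (hN.preimage hc).inter Metric.isOpen_ball
  obtain ⟨t, ht1, ht2⟩ := (Rat.denseRange_cast (𝕜 := ℝ)).exists_mem_open ho
    ⟨x, hx, Metric.mem_ball_self (by norm_num)⟩
  refine ⟨t, ?_, ht1⟩
  rw [Metric.mem_ball, Real.dist_eq] at ht2
  exact ht2.le

lemma climb_gen {q : Ω → B} {task : Ω → Σ k : ℕ, (ℕ → Fin k → Ω × S)} {F : Ω → Ω × S → S}
    (hF : Good q task F) {k : ℕ} (r : ℕ → Fin k → Ω × S) (ξ a : Ω) (hξ : task ξ = ⟨k, r⟩)
    (h : ξ < a) : ∀ (J : Finset (Fin k)) (V : Fin k → Set B)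
    (s : Fin k → Option Ω) (N : Fin k → Set S) (t : Fin k → ℚ),
    (∀ i, V i ∈ TopologicalSpace.countableBasis B) →
    (∀ i, N i ∈ TopologicalSpace.countableBasis S) →
    (∀ i b, s i = some b → b < a) →
    (∀ i ∈ J, ∀ j ∈ J, |((t i : ℚ) : ℝ) - ((t j : ℚ) : ℝ)| ≤ 3/4) →
    (∀ ρ : ℝ, 0 < ρ → ∃ n, r n ∈ W q F a J V s N ∧
      ∀ i ∈ J, dist (q (r n i).1) (q a) < ρ) →
    ∃ n, r n ∈ W q F a J V s N ∧
      ∀ i ∈ J, F a (r n i) = ((((t i : ℚ) : ℝ)) : S) := by
  have key := (hF a).gen ξ h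
  rw [hξ] at key
  exact key

/-- climbing over the new fibres -/
lemma climb {q : Ω → B} {task : Ω → Σ k : ℕ, (ℕ → Fin k → Ω × S)} {F : Ω → Ω × S → S}
    (hF : Good q task F) {k : ℕ} (r : ℕ → Fin k → Ω × S) (ξ δ : Ω) (hξ : task ξ = ⟨k, r⟩)
    (hξδ : ξ < δ) (hr : ∀ n, Function.Injective (r n)) (hrδ : ∀ n i, (r n i).1 < δ)
    (σ : Fin k → Ω) (w : Fin k → S) (τ : Fin k → ℝ) (hw : ∀ i, δ ≤ σ i → w i = ((τ i : ℝ) : S))
    (hτ : ∀ i j, δ ≤ σ i → σ i = σ j → |τ i - τ j| ≤ 1/2)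
    (h0 : ∀ (V : Fin k → Set B) (N : Fin k → Set S), (∀ i, IsOpen (V i)) → (∀ i, IsOpen (N i)) →
      (∀ i, q (σ i) ∈ V i) → (∀ i, w i ∈ N i) →
      ∃ n, (∀ i, q (r n i).1 ∈ V i) ∧ ∀ i, σ i < δ → F (σ i) (r n i) ∈ N i)
    (V : Fin k → Set B) (N : Fin k → Set S) (hV : ∀ i, IsOpen (V i)) (hN : ∀ i, IsOpen (N i))
    (hVm : ∀ i, q (σ i) ∈ V i) (hNm : ∀ i, w i ∈ N i) :
    ∃ n, (∀ i, q (r n i).1 ∈ V i) ∧ ∀ i, F (σ i) (r n i) ∈ N i := by
  classical
  have main : ∀ A : Finset Ω, (∀ x ∈ A, δ ≤ x) → ∀ (V : Fin k → Set B) (N : Fin k → Set S),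
      (∀ i, IsOpen (V i)) → (∀ i, IsOpen (N i)) → (∀ i, q (σ i) ∈ V i) → (∀ i, w i ∈ N i) →
      ∃ n, (∀ i, q (r n i).1 ∈ V i) ∧ ∀ i, (σ i < δ ∨ σ i ∈ A) → F (σ i) (r n i) ∈ N i := by
    intro A
    induction A using Finset.induction_on_max with
    | empty =>
      intro _ V N hV hN hVm hNm
      obtain ⟨n, h1, h2⟩ := h0 V N hV hN hVm hNm
      refine ⟨n, h1, fun i hi => ?_⟩
      rcases hi with hi | hi
      · exact h2 i hi
      · simp at hi
    | insert a A hA ih =>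
      intro hins V N hV hN hVm hNm
      have haδ : δ ≤ a := hins a (Finset.mem_insert_self a A)
      have ihA := ih (fun x hx => hins x (Finset.mem_insert_of_mem hx))
      have hVb : ∀ i, ∃ v ∈ TopologicalSpace.countableBasis B, q (σ i) ∈ v ∧ v ⊆ V i := fun i =>
        (TopologicalSpace.isBasis_countableBasis B).exists_subset_of_mem_open (hVm i) (hV i)
      have hNb : ∀ i, ∃ v ∈ TopologicalSpace.countableBasis S, w i ∈ v ∧ v ⊆ N i := fun i =>
        (TopologicalSpace.isBasis_countableBasis S).exists_subset_of_mem_open (hNm i) (hN i)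
      choose V' hV'b hV'm hV's using hVb
      choose N' hN'b hN'm hN's using hNb
      have hV'o : ∀ i, IsOpen (V' i) := fun i =>
        TopologicalSpace.isOpen_of_mem_countableBasis (hV'b i)
      have hN'o : ∀ i, IsOpen (N' i) := fun i =>
        TopologicalSpace.isOpen_of_mem_countableBasis (hN'b i)
      have hte : ∀ i, ∃ t : ℚ, σ i = a →
          (|((t : ℚ) : ℝ) - τ i| ≤ 1/8 ∧ (((t : ℚ) : ℝ) : S) ∈ N' i) := by
        intro i
        by_cases hi : σ i = a
        · have h1 : ((τ i : ℝ) : S) ∈ N' i := by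
            rw [← hw i (by rw [hi]; exact haδ)]; exact hN'm i
          obtain ⟨t, ht⟩ := climb_rat (τ i) (N' i) (hN'o i) h1
          exact ⟨t, fun _ => ht⟩
        · exact ⟨0, fun h => absurd h hi⟩
      choose t ht using hte
      have hgen := climb_gen hF r ξ a hξ (lt_of_lt_of_le hξδ haδ)
        (Finset.univ.filter (fun i => σ i = a)) V'
        (fun i => if (σ i < δ ∨ σ i ∈ A) then some (σ i) else none) N' t hV'b hN'b
        (by
          intro i b hb
          by_cases hc : (σ i < δ ∨ σ i ∈ A)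
          · rw [if_pos hc] at hb
            have hb' : σ i = b := Option.some.inj hb
            rw [← hb']
            rcases hc with hc | hc
            · exact lt_of_lt_of_le hc haδ
            · exact hA _ hc
          · rw [if_neg hc] at hb
            cases hb)
        (by
          intro i hi j hj
          simp only [Finset.mem_filter, Finset.mem_univ, true_and] at hi hj
          have h1 := (ht i hi).1
          have h2 := (ht j hj).1
          have h3 := hτ i j (by rw [hi]; exact haδ) (by rw [hi, hj])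
          rw [abs_le] at h1 h2 h3 ⊢
          constructor <;> linarith [h1.1, h1.2, h2.1, h2.2, h3.1, h3.2])
        (by
          intro ρ hρ
          obtain ⟨n, h1, h2⟩ := ihA (fun i => V' i ∩ Metric.ball (q (σ i)) ρ) N'
            (fun i => (hV'o i).inter Metric.isOpen_ball) hN'o
            (fun i => ⟨hV'm i, Metric.mem_ball_self hρ⟩) hN'm
          refine ⟨n, ⟨hr n, fun i _ => lt_of_lt_of_le (hrδ n i) haδ, fun i => (h1 i).1, ?_⟩, ?_⟩
          · intro i b hb
            beta_reduce at hb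
            by_cases hc : (σ i < δ ∨ σ i ∈ A)
            · rw [if_pos hc] at hb
              have hb' : σ i = b := Option.some.inj hb
              rw [← hb']
              exact h2 i hc
            · rw [if_neg hc] at hb
              cases hb
          · intro i hi
            simp only [Finset.mem_filter, Finset.mem_univ, true_and] at hi
            have h3 := (h1 i).2
            rw [hi] at h3
            exact h3)
      obtain ⟨n, ⟨_, _, h3, h4⟩, h5⟩ := hgen
      refine ⟨n, fun i => hV's i (h3 i), fun i hi => ?_⟩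
      by_cases hc : (σ i < δ ∨ σ i ∈ A)
      · exact hN's i (h4 i (σ i) (if_pos hc))
      · have hia : σ i = a := by
          rcases hi with hi | hi
          · exact absurd (Or.inl hi) hc
          · rcases Finset.mem_insert.1 hi with hi | hi
            · exact hi
            · exact absurd (Or.inr hi) hc
        have h6 := h5 i (by simp [hia])
        apply hN's i
        rw [hia, h6]
        exact (ht i hia).2
  obtain ⟨n, h1, h2⟩ := main ((Finset.univ.image σ).filter (fun x => δ ≤ x))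
    (fun x hx => (Finset.mem_filter.1 hx).2) V N hV hN hVm hNm
  refine ⟨n, h1, fun i => h2 i ?_⟩
  rcases lt_or_ge (σ i) δ with h | h
  · exact Or.inl h
  · exact Or.inr (Finset.mem_filter.2 ⟨Finset.mem_image_of_mem σ (Finset.mem_univ i), h⟩)

section secC
variable {q : Ω → B} {task : Ω → Σ k : ℕ, (ℕ → Fin k → Ω × S)} {F : Ω → Ω × S → S}

end secC

lemma reflect_cont [WellFoundedLT Ω]
    {q : Ω → B} {task : Ω → Σ k : ℕ, (ℕ → Fin k → Ω × S)} {F : Ω → Ω × S → S}
    (hF : Good q task F) (b : Ω) :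
    @Continuous S (XT q F) _ _ (fun c : S => (b, c)) := by
  refine continuous_induced_rng.2 ?_
  change Continuous (fun c : S => (q b, fun a => F a (b, c)))
  refine continuous_const.prodMk (continuous_pi fun a => ?_)
  rw [continuous_iff_continuousAt]
  intro c0
  have h := tendsto_all hF (b, c0) (map (fun c : S => (b, c)) (𝓝 c0)) ?_ ?_ a
  · exact h
  · exact tendsto_map'_iff.2 tendsto_const_nhds
  · rw [tendsto_map'_iff]
    have e : (F ((b, c0) : Ω × S).1 ∘ fun c : S => (b, c)) = id := by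
      funext c
      exact (hF b).diag c
    rw [e]
    exact tendsto_id

lemma reflect_nhds [WellFoundedLT Ω]
    {q : Ω → B} {task : Ω → Σ k : ℕ, (ℕ → Fin k → Ω × S)} {F : Ω → Ω × S → S}
    (hF : Good q task F) (g : XT q F → ℝ) (hg : Continuous g) (O : Set ℝ) (hO : IsOpen O)
    (y : Ω × S) (hy : g y ∈ O) :
    ∃ (V : Set B) (N : Set S), IsOpen V ∧ IsOpen N ∧ q y.1 ∈ V ∧ y.2 ∈ N ∧
      ∀ z : Ω × S, q z.1 ∈ V → F y.1 z ∈ N → g z ∈ O := by
  have h1 : g ⁻¹' O ∈ @nhds (XT q F) _ y := (hO.preimage hg).mem_nhds hy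
  rw [nhds_XT hF y] at h1
  have h1' : (g ⁻¹' O : Set (Ω × S)) ∈ (comap (fun y : Ω × S => q y.1) (𝓝 (q y.1)) ⊓
    comap (F y.1) (𝓝 y.2) : Filter (Ω × S)) := h1
  obtain ⟨A, hA, C, hC, hAC⟩ := mem_inf_iff.1 h1'
  obtain ⟨V0, hV0, hV0A⟩ := mem_comap.1 hA
  obtain ⟨N0, hN0, hN0C⟩ := mem_comap.1 hC
  obtain ⟨V, hVV0, hVo, hVm⟩ := mem_nhds_iff.1 hV0
  obtain ⟨N, hNN0, hNo, hNm⟩ := mem_nhds_iff.1 hN0
  refine ⟨V, N, hVo, hNo, hVm, hNm, fun z hz1 hz2 => ?_⟩
  have h2 : z ∈ A ∩ C := ⟨hV0A (hVV0 hz1), hN0C (hNN0 hz2)⟩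
  have h3 : z ∈ (g ⁻¹' O : Set (Ω × S)) := by
    rw [hAC]
    exact h2
  exact h3

theorem reflect [WellFoundedLT Ω] (hc : ∀ a : Ω, (Iio a).Countable) (hu : ¬ Countable Ω)
    {q : Ω → B} {task : Ω → Σ k : ℕ, (ℕ → Fin k → Ω × S)} {F : Ω → Ω × S → S}
    (hF : Good q task F) (htask : Function.Surjective task) {k : ℕ}
    (E : Set (Fin k → Ω × S)) (hE : ∀ x ∈ E, Function.Injective x) :
    ∃ R ⊆ E, R.Countable ∧ ∀ g : XT q F → ℝ, Continuous g → ∀ O : Fin k → Set ℝ,
      (∀ i, IsOpen (O i)) → (∃ x ∈ E, ∀ i, g (x i) ∈ O i) → ∃ x ∈ R, ∀ i, g (x i) ∈ O i := by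
  classical
  rcases E.eq_empty_or_nonempty with hE0 | hE0
  · refine ⟨∅, empty_subset _, countable_empty, ?_⟩
    rintro g - O - ⟨x, hx, -⟩
    rw [hE0] at hx
    exact absurd hx (notMem_empty x)
  choose rr hrE hrd using fun s => dense_seq q F k E hE0 s
  choose ξ hξ using fun s : Fin k → Option Ω => htask ⟨k, rr s⟩
  have hb : ∀ s : Fin k → Option Ω, ∃ δ : Ω,
      ∀ c ∈ ({ξ s} ∪ range (fun p : ℕ × Fin k => (rr s p.1 p.2).1) : Set Ω), c < δ := fun s =>
    bounded_of_countable hc hu _ ((countable_singleton _).union (countable_range _))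
  choose e he using hb
  have he1 : ∀ s, ξ s < e s := fun s => he s _ (Or.inl rfl)
  have he2 : ∀ s n i, (rr s n i).1 < e s := fun s n i => he s _ (Or.inr ⟨(n, i), rfl⟩)
  obtain ⟨δ, hδ⟩ := close_off hc hu k e
  refine ⟨⋃ s ∈ {s : Fin k → Option Ω | ∀ i b, s i = some b → b < δ}, range (rr s), ?_, ?_, ?_⟩
  · refine iUnion₂_subset fun s _ => ?_
    rintro _ ⟨n, rfl⟩
    exact hrE s n
  · refine Countable.biUnion ?_ fun s _ => countable_range _
    have h1 : {o : Option Ω | ∀ b, o = some b → b < δ}.Countable := by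
      refine ((countable_singleton none).union ((hc δ).image some)).mono ?_
      intro o ho
      rcases o with _ | b
      · exact Or.inl rfl
      · exact Or.inr ⟨b, ho b rfl, rfl⟩
    refine (Set.countable_univ_pi (fun _ : Fin k => h1)).mono ?_
    intro s hs i _ b hb
    exact hs i b hb
  · rintro g hg O hO ⟨x, hxE, hxO⟩
    choose m hm using fun b : Ω => circle_ivt (fun c : S => g (b, c))
      (hg.comp (reflect_cont hF b))
    choose τ hτ1 hτ2 using fun i : Fin k => hm (x i).1 (x i).2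
    obtain ⟨s, hs⟩ : ∃ s : Fin k → Option Ω,
        s = fun i => if (x i).1 < δ then some (x i).1 else none := ⟨_, rfl⟩
    have hs1 : ∀ i, (x i).1 < δ → s i = some (x i).1 := by
      intro i hi
      rw [hs]
      exact if_pos hi
    have hs2 : ∀ i b, s i = some b → (x i).1 < δ ∧ b = (x i).1 := by
      intro i b hib
      rw [hs] at hib
      by_cases hi : (x i).1 < δ
      · simp only [if_pos hi] at hib
        exact ⟨hi, (Option.some.inj hib).symm⟩
      · simp only [if_neg hi] at hib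
        exact absurd hib (by simp)
    have hsδ : ∀ i b, s i = some b → b < δ := by
      intro i b hib
      obtain ⟨h1, h2⟩ := hs2 i b hib
      rw [h2]
      exact h1
    have heδ := hδ s hsδ
    obtain ⟨w, hw⟩ : ∃ w : Fin k → S,
        w = fun i => if (x i).1 < δ then (x i).2 else ((τ i : ℝ) : S) := ⟨_, rfl⟩
    have hw1 : ∀ i, (x i).1 < δ → w i = (x i).2 := by
      intro i hi
      rw [hw]
      exact if_pos hi
    have hw2 : ∀ i, δ ≤ (x i).1 → w i = ((τ i : ℝ) : S) := by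
      intro i hi
      rw [hw]
      exact if_neg (not_lt.2 hi)
    have hgw : ∀ i, g (((x i).1, w i) : Ω × S) ∈ O i := by
      intro i
      rcases lt_or_ge (x i).1 δ with hi | hi
      · rw [hw1 i hi]
        exact hxO i
      · rw [hw2 i hi]
        have h1 := hτ2 i
        beta_reduce at h1
        have h2 : g (((x i).1, ((τ i : ℝ) : S)) : Ω × S) = g (x i) := h1
        rw [h2]
        exact hxO i
    choose V N hVo hNo hVm hNm hVN using fun i =>
      reflect_nhds hF g hg (O i) (hO i) ((x i).1, w i) (hgw i)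
    have hτ' : ∀ i j, δ ≤ (x i).1 → (x i).1 = (x j).1 → |τ i - τ j| ≤ 1/2 := by
      intro i j _ hij
      have h1 := hτ1 i
      have h2 := hτ1 j
      rw [hij] at h1
      rw [abs_le]
      constructor <;> linarith [h1.1, h1.2, h2.1, h2.2]
    have h0' : ∀ (V : Fin k → Set B) (N : Fin k → Set S), (∀ i, IsOpen (V i)) →
        (∀ i, IsOpen (N i)) → (∀ i, q (x i).1 ∈ V i) → (∀ i, w i ∈ N i) →
        ∃ n, (∀ i, q (rr s n i).1 ∈ V i) ∧
          ∀ i, (x i).1 < δ → F (x i).1 (rr s n i) ∈ N i := by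
      intro V' N' hV' hN' hVm' hNm'
      obtain ⟨n, hn1, hn2⟩ := hrd s V' N' hV' hN' ⟨x, hxE, hVm', fun i b hib => by
        obtain ⟨h1, h2⟩ := hs2 i b hib
        rw [h2]
        have h3 : F (x i).1 (x i) = (x i).2 := (hF (x i).1).diag (x i).2
        rw [h3, ← hw1 i h1]
        exact hNm' i⟩
      exact ⟨n, hn1, fun i hi => hn2 i _ (hs1 i hi)⟩
    obtain ⟨n, hn1, hn2⟩ := climb hF (rr s) (ξ s) δ (hξ s) ((he1 s).trans heδ)
      (fun n => hE _ (hrE s n)) (fun n i => (he2 s n i).trans heδ)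
      (fun i => (x i).1) w τ hw2 hτ' h0' V N hVo hNo hVm hNm
    refine ⟨rr s n, ?_, fun i => hVN i _ (hn1 i) (hn2 i)⟩
    exact mem_iUnion₂.2 ⟨s, hsδ, n, rfl⟩

/-- the reflection property implies that `C_p` is Lindelöf -/
theorem lindelof_of_reflect {X : Type*} [TopologicalSpace X]
    (h : ∀ (k : ℕ) (E : Set (Fin k → X)), (∀ x ∈ E, Function.Injective x) →
      ∃ R ⊆ E, R.Countable ∧ ∀ g : X → ℝ, Continuous g → ∀ O : Fin k → Set ℝ,
      (∀ i, IsOpen (O i)) → (∃ x ∈ E, ∀ i, g (x i) ∈ O i) → ∃ x ∈ R, ∀ i, g (x i) ∈ O i) :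
    LindelofSpace {g : X → ℝ // Continuous g} := by
  classical
  refine ⟨isLindelof_of_countable_subcover ?_⟩
  intro ι U hU hcov
  have hR : ∀ (k : ℕ) (O : Fin k → TopologicalSpace.countableBasis ℝ),
      ∃ R : Set (Fin k → X), R ⊆ {x : Fin k → X | Function.Injective x ∧
        ∃ j, {g : {g : X → ℝ // Continuous g} | ∀ i, g.1 (x i) ∈ (O i : Set ℝ)} ⊆ U j} ∧
      R.Countable ∧ ∀ g : X → ℝ, Continuous g →
        (∃ x ∈ {x : Fin k → X | Function.Injective x ∧
          ∃ j, {g : {g : X → ℝ // Continuous g} | ∀ i, g.1 (x i) ∈ (O i : Set ℝ)} ⊆ U j},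
          ∀ i, g (x i) ∈ (O i : Set ℝ)) → ∃ x ∈ R, ∀ i, g (x i) ∈ (O i : Set ℝ) := by
    intro k O
    obtain ⟨R, h1, h2, h3⟩ := h k {x : Fin k → X | Function.Injective x ∧
        ∃ j, {g : {g : X → ℝ // Continuous g} | ∀ i, g.1 (x i) ∈ (O i : Set ℝ)} ⊆ U j}
        (fun x hx => hx.1)
    exact ⟨R, h1, h2, fun g hg hx => h3 g hg (fun i => (O i : Set ℝ))
      (fun i => TopologicalSpace.isOpen_of_mem_countableBasis (O i).2) hx⟩
  choose R hR1 hR2 hR3 using hR
  let T : (k : ℕ) → (Fin k → TopologicalSpace.countableBasis ℝ) → (Fin k → X) → Set ι :=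
    fun k O x => if hh : ∃ j, {g : {g : X → ℝ // Continuous g} |
      ∀ i, g.1 (x i) ∈ (O i : Set ℝ)} ⊆ U j then {hh.choose} else ∅
  have hTc : ∀ k O x, (T k O x).Countable := by
    intro k O x
    simp only [T]
    split_ifs
    · exact Set.countable_singleton _
    · exact Set.countable_empty
  have : Countable (TopologicalSpace.countableBasis ℝ) :=
    (TopologicalSpace.countable_countableBasis ℝ).to_subtype
  refine ⟨⋃ k : ℕ, ⋃ O : Fin k → TopologicalSpace.countableBasis ℝ, ⋃ x ∈ R k O, T k O x, ?_, ?_⟩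
  · refine Set.countable_iUnion fun k => Set.countable_iUnion fun O => ?_
    exact (hR2 k O).biUnion fun x _ => hTc k O x
  · intro g _
    obtain ⟨j, hj⟩ := Set.mem_iUnion.1 (hcov (Set.mem_univ g))
    obtain ⟨V, hV, hVU⟩ := isOpen_induced_iff.1 (hU j)
    have hgV : g.1 ∈ V := by
      have : g ∈ Subtype.val ⁻¹' V := by rw [hVU]; exact hj
      exact this
    obtain ⟨I, u, hu, hIu⟩ := isOpen_pi_iff.1 hV g.1 hgV
    have hB : ∀ a : X, ∃ b : TopologicalSpace.countableBasis ℝ, a ∈ I →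
        (g.1 a ∈ (b : Set ℝ) ∧ (b : Set ℝ) ⊆ u a) := by
      intro a
      by_cases ha : a ∈ I
      · obtain ⟨b, hb1, hb2, hb3⟩ :=
          (TopologicalSpace.isBasis_countableBasis ℝ).exists_subset_of_mem_open
            (hu a ha).2 (hu a ha).1
        exact ⟨⟨b, hb1⟩, fun _ => ⟨hb2, hb3⟩⟩
      · obtain ⟨b, hb1, hb2, hb3⟩ :=
          (TopologicalSpace.isBasis_countableBasis ℝ).exists_subset_of_mem_open
            (Set.mem_univ (0 : ℝ)) isOpen_univ
        exact ⟨⟨b, hb1⟩, fun h => absurd h ha⟩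
    choose b hb using hB
    let x : Fin I.card → X := fun i => (I.equivFin.symm i : X)
    have hxI : ∀ i, x i ∈ I := fun i => (I.equivFin.symm i).2
    have hxinj : Function.Injective x :=
      Subtype.val_injective.comp I.equivFin.symm.injective
    have hE : x ∈ {x : Fin I.card → X | Function.Injective x ∧
          ∃ j, {g : {g : X → ℝ // Continuous g} | ∀ i, g.1 (x i) ∈ (b ((I.equivFin.symm i : I) : X) : Set ℝ)} ⊆ U j} := by
      refine ⟨hxinj, j, ?_⟩
      intro g' hg'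
      rw [← hVU]
      refine hIu ?_
      intro a ha
      have h1 := hg' (I.equivFin ⟨a, ha⟩)
      simp only [x, Equiv.symm_apply_apply] at h1
      exact (hb a ha).2 h1
    obtain ⟨x', hx', hgx'⟩ := hR3 I.card (fun i => b ((I.equivFin.symm i : I) : X)) g.1 g.2
      ⟨x, hE, fun i => (hb _ (hxI i)).1⟩
    have hx'E := hR1 _ _ hx'
    have hex := hx'E.2
    refine Set.mem_iUnion₂.2 ⟨hex.choose, ?_, hex.choose_spec hgx'⟩
    refine Set.mem_iUnion.2 ⟨I.card, Set.mem_iUnion.2 ⟨fun i => b ((I.equivFin.symm i : I) : X),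
      Set.mem_iUnion₂.2 ⟨x', hx', ?_⟩⟩⟩
    simp only [T]
    rw [dif_pos hex]
    rfl

end CFib
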