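import Pool.Agent.Helper416.CFib.ZeroDim
import Pool.Agent.Helper416.CFib.Reflect
import Pool.Agent.Helper416.CFib.Data

noncomputable section

namespace CFib

universe u

/-- Under the continuum hypothesis there is a compact Hausdorff space `X` with `C_p(X)` Lindelöf
such that `C_p(Y)` is not Lindelöf for any zero-dimensional compact `Y` mapping onto `X`. -/
theorem ch_final (hCH : Cardinal.aleph 1 = Cardinal.continuum.{0}) :
    ∃ (X : Type) (_ : TopologicalSpace X), CompactSpace X ∧ T2Space X ∧
      LindelofSpace {g : X → ℝ // Continuous g} ∧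
      ∀ (Y : Type u) [TopologicalSpace Y] [CompactSpace Y] [T2Space Y],
        TopologicalSpace.IsTopologicalBasis {s : Set Y | IsClopen s} →
        (∃ f : Y → X, Continuous f ∧ Function.Surjective f) →
        ¬ LindelofSpace {g : Y → ℝ // Continuous g} := by
  obtain ⟨Ω, i1, i2, hc, hu, ⟨q, hq⟩, task, htask⟩ := ch_data hCH
  obtain ⟨F, hF⟩ := exists_good hc q hq.1 task
  refine ⟨XT q F, inferInstance, compact_XT hF hq, t2_XT hF hq.1, ?_, ?_⟩
  · refine lindelof_of_reflect (X := XT q F) ?_
    intro k E hE
    exact reflect hc hu hF htask E hE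
  · rintro Y _ _ _ hY ⟨f, hf, hs⟩
    exact no_zero_dim hF hq hY f hf hs

end CFib
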