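import Mathlib
import Pool.Agent.Helper416.CFib.Coords

open Set Filter Topology

noncomputable section

namespace CFib

variable {Ω : Type} [LinearOrder Ω]

lemma local_lift {X : Type} [TopologicalSpace X] [CompactSpace X] (p : X → B)
    (hp : Continuous p) (Φ : X → S) (hΦ : Continuous Φ)
    (hz : ∀ z : B, ∃ w : S, ∀ x, p x = z → Φ x ≠ w) (z : B) :
    ∃ U : Set B, IsOpen U ∧ z ∈ U ∧ ∃ θ : X → ℝ, ContinuousOn θ (p ⁻¹' U) ∧
      ∀ x, p x ∈ U → ((θ x : ℝ) : S) = Φ x := by
  haveI : Fact ((0:ℝ) < 1) := ⟨zero_lt_one⟩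
  obtain ⟨w, hw⟩ := hz z
  obtain ⟨b, rfl⟩ : ∃ b : ℝ, ((b : ℝ) : S) = w := QuotientAddGroup.mk_surjective w
  have hK : IsCompact (Φ ⁻¹' {((b : ℝ) : S)}) := (isClosed_singleton.preimage hΦ).isCompact
  have hcl : IsClosed (p '' (Φ ⁻¹' {((b : ℝ) : S)})) := (hK.image hp).isClosed
  refine ⟨(p '' (Φ ⁻¹' {((b : ℝ) : S)}))ᶜ, hcl.isOpen_compl, ?_,
    fun x => (AddCircle.equivIco 1 b (Φ x) : ℝ), ?_, ?_⟩
  · rintro ⟨x, hx, rfl⟩
    exact hw x rfl hx
  · intro x hx
    have hne : Φ x ≠ ((b : ℝ) : S) := fun h => hx ⟨x, h, rfl⟩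
    have h1 : ContinuousAt (AddCircle.equivIco 1 b) (Φ x) := AddCircle.continuousAt_equivIco 1 b hne
    have h2 : ContinuousAt (fun x => AddCircle.equivIco 1 b (Φ x)) x :=
      ContinuousAt.comp (g := AddCircle.equivIco 1 b) (f := Φ) h1 hΦ.continuousAt
    exact (continuous_subtype_val.continuousAt.comp h2).continuousWithinAt
  · intro x _
    exact AddCircle.coe_equivIco

/-- a continuous function on a preconnected set with integer values is constant -/
lemma const_of_int {X : Type} [TopologicalSpace X] {C : Set X} (hC : IsPreconnected C) (f : X → ℝ)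
    (hf : ContinuousOn f C) (hi : ∀ x ∈ C, ((f x : ℝ) : S) = 0) : ∀ x ∈ C, ∀ y ∈ C, f x = f y := by
  have hint : ∀ x ∈ C, ∃ n : ℤ, f x = n := by
    intro x hx
    obtain ⟨n, hn⟩ := (AddCircle.coe_eq_zero_iff (1:ℝ)).1 (hi x hx)
    refine ⟨n, ?_⟩
    rw [← hn]
    simp
  have key : ∀ x ∈ C, ∀ y ∈ C, ¬ f x < f y := by
    intro x hx y hy hlt
    obtain ⟨n, hn⟩ := hint x hx
    obtain ⟨m, hm⟩ := hint y hy
    rw [hn, hm] at hlt
    have h1 : n < m := by exact_mod_cast hlt
    have h2 : (n : ℝ) + 1 ≤ m := by exact_mod_cast h1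
    obtain ⟨c, hc, hfc⟩ := hC.intermediate_value hx hy hf (show (n : ℝ) + 1 / 2 ∈ Icc (f x) (f y) by
      rw [hn, hm]
      constructor <;> linarith)
    obtain ⟨k, hk⟩ := hint c hc
    rw [hk] at hfc
    have h3 : (2 * k : ℝ) = 2 * n + 1 := by linarith
    have h4 : 2 * k = 2 * n + 1 := by exact_mod_cast h3
    omega
  intro x hx y hy
  exact le_antisymm (not_lt.1 (key y hy x hx)) (not_lt.1 (key x hx y hy))

lemma global_avg {X : Type} [TopologicalSpace X] [CompactSpace X] (p : X → B)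
    (hp : Continuous p) (hfib : ∀ z : B, IsPreconnected (p ⁻¹' {z})) (Φ : X → S)
    (hΦ : Continuous Φ)
    (hloc : ∀ z : B, ∃ U : Set B, IsOpen U ∧ z ∈ U ∧ ∃ θ : X → ℝ, ContinuousOn θ (p ⁻¹' U) ∧
      ∀ x, p x ∈ U → ((θ x : ℝ) : S) = Φ x) :
    ∃ h : X → ℝ, Continuous h ∧
      (∀ x y, p x = p y → Φ x - ((h x : ℝ) : S) = Φ y - ((h y : ℝ) : S)) ∧
      ∀ z : B, (∀ x y, p x = z → p y = z → Φ x = Φ y) → ∀ x y, p x = z → p y = z → h x = h y := by
  choose U hUo hzU θ hθc hθΦ using hloc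
  obtain ⟨t, ht⟩ : ∃ t : Finset B, (univ : Set B) ⊆ ⋃ z ∈ t, U z :=
    isCompact_univ.elim_finite_subcover U hUo (fun z _ => mem_iUnion.2 ⟨z, hzU z⟩)
  obtain ⟨f, hf⟩ := PartitionOfUnity.exists_isSubordinate (isClosed_univ (X := B))
    (fun i : t => U i) (fun i => hUo i) (by
      intro z _
      obtain ⟨w, hw⟩ := mem_iUnion.1 (ht (mem_univ z))
      obtain ⟨hwt, hzw⟩ := mem_iUnion.1 hw
      exact mem_iUnion.2 ⟨⟨w, hwt⟩, hzw⟩)
  have hA : ∀ (z i j : B), z ∈ U i → z ∈ U j → ∀ x y, p x = z → p y = z →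
      θ i x - θ i y = θ j x - θ j y := by
    intro z i j hi hj x y hx hy
    have h1 := const_of_int (hfib z) (fun w => θ i w - θ j w)
      (by
        apply ContinuousOn.sub
        · refine (hθc i).mono ?_
          intro w hw
          have hw' : p w = z := hw
          show p w ∈ U i
          rw [hw']; exact hi
        · refine (hθc j).mono ?_
          intro w hw
          have hw' : p w = z := hw
          show p w ∈ U j
          rw [hw']; exact hj)
      (by
        intro w hw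
        have hw' : p w = z := hw
        have e1 := hθΦ i w (by rw [hw']; exact hi)
        have e2 := hθΦ j w (by rw [hw']; exact hj)
        show ((θ i w - θ j w : ℝ) : S) = 0
        rw [AddCircle.coe_sub, e1, e2, sub_self])
      x hx y hy
    have h2 : θ i x - θ j x = θ i y - θ j y := h1
    linarith
  obtain ⟨h, hh⟩ : ∃ h : X → ℝ, h = fun x => ∑ i : t, f i (p x) * θ i x := ⟨_, rfl⟩
  have hdiff : ∀ z x y, p x = z → p y = z → h x - h y = θ z x - θ z y := by
    intro z x y hx hy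
    have h1 : ∀ i : t, f i z * θ i x - f i z * θ i y = f i z * (θ z x - θ z y) := by
      intro i
      rw [← mul_sub]
      by_cases h0 : f i z = 0
      · rw [h0, zero_mul, zero_mul]
      · have hmem : z ∈ U i := hf i (subset_tsupport _ h0)
        rw [hA z i z hmem (hzU z) x y hx hy]
    have h2 : ∑ i : t, f i z = 1 := by
      have := f.sum_eq_one (mem_univ z)
      rwa [finsum_eq_sum_of_fintype] at this
    rw [hh]
    show ∑ i : t, f i (p x) * θ i x - ∑ i : t, f i (p y) * θ i y = _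
    rw [hx, hy, ← Finset.sum_sub_distrib, Finset.sum_congr rfl (fun i _ => h1 i),
      ← Finset.sum_mul, h2, one_mul]
  refine ⟨h, ?_, ?_, ?_⟩
  · rw [hh]
    apply continuous_finset_sum
    intro i _
    apply continuous_of_tsupport
    intro x hx
    have hx1 : x ∈ p ⁻¹' (tsupport (f i)) := by
      have hcl : IsClosed (p ⁻¹' (tsupport (f i))) := (isClosed_tsupport _).preimage hp
      refine closure_minimal ?_ hcl hx
      intro w hw
      apply subset_tsupport
      intro h0
      apply hw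
      show f i (p w) * θ i w = 0
      have h0' : f i (p w) = 0 := h0
      rw [h0', zero_mul]
    have hx2 : p x ∈ U i := hf i hx1
    have ho : IsOpen (p ⁻¹' (U i)) := (hUo i).preimage hp
    exact ((f i).continuous.comp hp).continuousAt.mul
      ((hθc i).continuousAt (ho.mem_nhds hx2))
  · intro x y hxy
    have h1 := hdiff (p y) x y hxy rfl
    have e1 := hθΦ (p y) x (by rw [hxy]; exact hzU _)
    have e2 := hθΦ (p y) y (hzU _)
    have h2 : ((h x : ℝ) : S) - ((h y : ℝ) : S) = Φ x - Φ y := by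
      rw [← AddCircle.coe_sub, h1, AddCircle.coe_sub, e1, e2]
    have h3 : Φ x - ((h x : ℝ) : S) - (Φ y - ((h y : ℝ) : S)) = 0 := by
      have : Φ x - ((h x : ℝ) : S) - (Φ y - ((h y : ℝ) : S)) =
          (Φ x - Φ y) - (((h x : ℝ) : S) - ((h y : ℝ) : S)) := by abel
      rw [this, h2, sub_self]
    exact sub_eq_zero.1 h3
  · intro z hz x y hx hy
    have h1 := hdiff z x y hx hy
    have h2 := const_of_int (hfib z) (fun w => θ z w - θ z y)
      (by
        apply ContinuousOn.sub _ continuousOn_const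
        refine (hθc z).mono ?_
        intro w hw
        have hw' : p w = z := hw
        show p w ∈ U z
        rw [hw']; exact hzU z)
      (by
        intro w hw
        have hw' : p w = z := hw
        have e1 := hθΦ z w (by rw [hw']; exact hzU z)
        have e2 := hθΦ z y (by rw [hy]; exact hzU z)
        show ((θ z w - θ z y : ℝ) : S) = 0
        rw [AddCircle.coe_sub, e1, e2, hz w y hw' hy, sub_self])
      x hx y hy
    have h3 : θ z x - θ z y = θ z y - θ z y := h2
    linarith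

/-- descent along a closed surjection, over a closed set -/
lemma descend {X : Type} {M : Type} [TopologicalSpace X] [TopologicalSpace M] [CompactSpace X]
    (p : X → B) (hp : Continuous p) (hs : Function.Surjective p) (D : Set B) (hD : IsClosed D)
    (h : X → M) (hh : Continuous h) (hc : ∀ x y, p x = p y → p x ∈ D → h x = h y) :
    ∃ g : B → M, ContinuousOn g D ∧ ∀ x, p x ∈ D → g (p x) = h x := by
  have key : ∀ x, p x ∈ D → h (Function.surjInv hs (p x)) = h x := by
    intro x hx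
    have h1 : p (Function.surjInv hs (p x)) = p x := Function.surjInv_eq hs (p x)
    exact hc _ _ h1 (by rw [h1]; exact hx)
  refine ⟨fun z => h (Function.surjInv hs z), ?_, key⟩
  rw [continuousOn_iff_isClosed]
  intro t ht
  refine ⟨p '' (p ⁻¹' D ∩ h ⁻¹' t), ?_, ?_⟩
  · exact (((hD.preimage hp).inter (ht.preimage hh)).isCompact.image hp).isClosed
  · ext z
    constructor
    · rintro ⟨h1, h2⟩
      have h3 : p (Function.surjInv hs z) = z := Function.surjInv_eq hs z
      refine ⟨⟨Function.surjInv hs z, ⟨?_, h1⟩, h3⟩, h2⟩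
      show p (Function.surjInv hs z) ∈ D
      rw [h3]
      exact h2
    · rintro ⟨⟨x, ⟨h1, h2⟩, rfl⟩, h3⟩
      refine ⟨?_, h3⟩
      show h (Function.surjInv hs (p x)) ∈ t
      rw [key x h3]
      exact h2

/-- every map from the square to the circle lifts -/
lemma square_lift (Ψ : B → S) (hΨ : Continuous Ψ) :
    ∃ ψ : B → ℝ, Continuous ψ ∧ ∀ z, ((ψ z : ℝ) : S) = Ψ z := by
  have cov : IsCoveringMap ((↑) : ℝ → AddCircle (1:ℝ)) := AddCircle.isCoveringMap_coe (1:ℝ)
  let γ : C(unitInterval, S) :=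
    ⟨fun a => Ψ (0, a), hΨ.comp (continuous_const.prodMk continuous_id)⟩
  obtain ⟨e, he⟩ : ∃ e : ℝ, (e : S) = γ 0 := QuotientAddGroup.mk_surjective (γ 0)
  let f : C(unitInterval, ℝ) := cov.liftPath γ e he.symm
  have hf : ∀ a, ((f a : ℝ) : S) = Ψ (0, a) := fun a => congrFun (cov.liftPath_lifts γ e he.symm) a
  let H : C(unitInterval × unitInterval, S) := ⟨Ψ, hΨ⟩
  let ψ := cov.liftHomotopy H f (fun a => (hf a).symm)
  exact ⟨ψ, ψ.continuous, fun z => congrFun (cov.liftHomotopy_lifts H f (fun a => (hf a).symm)) z⟩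

/-- the boundary map has winding number one, so it does not lift -/
lemma no_bd_lift (g : B → ℝ) (hg : ContinuousOn g bd) (h : ∀ z ∈ bd, ((g z : ℝ) : S) = bval z) :
    False := by
  have h01 : (0 : unitInterval) ≠ 1 := zero_ne_one
  have hper : (((1 : ℝ)) : S) = 0 := AddCircle.coe_period 1
  have hz : (((0 : ℝ)) : S) = 0 := AddCircle.coe_zero 1
  have huniv : IsPreconnected (Set.univ : Set unitInterval) := isPreconnected_univ
  -- general statement along a path
  have key : ∀ (γ : unitInterval → B) (s : unitInterval → ℝ), Continuous γ → Continuous s →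
      (∀ t, γ t ∈ bd) → (∀ t, bval (γ t) = ((s t : ℝ) : S)) →
      g (γ 0) - s 0 = g (γ 1) - s 1 := by
    intro γ s hγ hs hbd hb
    refine const_of_int huniv (fun t => g (γ t) - s t) ?_ ?_ 0 (Set.mem_univ _) 1 (Set.mem_univ _)
    · exact (hg.comp hγ.continuousOn (fun t _ => hbd t)).sub hs.continuousOn
    · intro t _
      rw [AddCircle.coe_sub, h _ (hbd t), hb t, sub_self]
  have e1 := key (fun t => (0, t)) (fun _ => 0) (by fun_prop) continuous_const
    (fun t => Or.inl rfl) (fun t => by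
      rw [hz]; unfold bval; exact if_neg h01)
  have e2 := key (fun t => (t, 0)) (fun _ => 0) (by fun_prop) continuous_const
    (fun t => Or.inr (Or.inr (Or.inl rfl))) (fun t => by
      rw [hz]; unfold bval
      split_ifs with ht
      · exact hz
      · rfl)
  have e3 := key (fun t => (t, 1)) (fun _ => 0) (by fun_prop) continuous_const
    (fun t => Or.inr (Or.inr (Or.inr rfl))) (fun t => by
      rw [hz]; unfold bval
      split_ifs with ht
      · exact hper
      · rfl)
  have e4 := key (fun t => (1, t)) (fun t => (t : ℝ)) (by fun_prop) continuous_subtype_val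
    (fun t => Or.inr (Or.inl rfl)) (fun t => by
      unfold bval; exact if_pos rfl)
  simp only [Set.Icc.coe_zero, Set.Icc.coe_one] at e1 e2 e3 e4
  linarith

theorem no_winding {X : Type} [TopologicalSpace X] [CompactSpace X] (p : X → B)
    (hp : Continuous p) (hs : Function.Surjective p) (hfib : ∀ z : B, IsPreconnected (p ⁻¹' {z}))
    (Φ : X → S) (hΦ : Continuous Φ) (hz : ∀ z : B, ∃ w : S, ∀ x, p x = z → Φ x ≠ w)
    (hb : ∀ x, p x ∈ bd → Φ x = bval (p x)) : False := by
  obtain ⟨h, hhc, h1, h2⟩ := global_avg p hp hfib Φ hΦ (local_lift p hp Φ hΦ hz)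
  have hcoe : Continuous (fun x : ℝ => (x : S)) := AddCircle.continuous_mk' 1
  obtain ⟨Ψ, hΨ, hΨ2⟩ := descend p hp hs Set.univ isClosed_univ (fun x => Φ x - ((h x : ℝ) : S))
    (hΦ.sub (hcoe.comp hhc)) (fun x y hxy _ => h1 x y hxy)
  have hΨc : Continuous Ψ := continuousOn_univ.mp hΨ
  obtain ⟨ψ, hψc, hψ⟩ := square_lift Ψ hΨc
  obtain ⟨g0, hg0, hg02⟩ := descend p hp hs bd isClosed_bd h hhc (fun x y hxy hx => by
    apply h2 (p x) _ x y rfl hxy.symm
    intro a b ha hb'
    rw [hb a (by rw [ha]; exact hx), hb b (by rw [hb']; exact hx), ha, hb'])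
  apply no_bd_lift (fun z => ψ z + g0 z) (hψc.continuousOn.add hg0)
  intro z hz'
  obtain ⟨x, rfl⟩ := hs z
  show ((ψ (p x) + g0 (p x) : ℝ) : S) = bval (p x)
  rw [AddCircle.coe_add, hψ, hg02 x hz', hΨ2 x (Set.mem_univ _), sub_add_cancel, hb x hz']

section secE
variable {q : Ω → B} {task : Ω → Σ k : ℕ, (ℕ → Fin k → Ω × S)} {F : Ω → Ω × S → S}

lemma detect (hF : Good q task F) (Φ : Ω × S → S)
    (hΦ : ∀ (b : Ω) (K : Finset (Ω × S)) (ε : ℝ), 0 < ε →
      ∃ a, a ≠ b ∧ q a ∉ bd ∧ ∀ x ∈ K, dist (F a x) (Φ x) < ε) :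
    (∀ b, ∃ w : S, ∀ c, Φ (b, c) ≠ w) ∧ ∀ b c, q b ∈ bd → Φ (b, c) = bval (q b) := by
  classical
  constructor
  · intro b
    by_contra hcon
    push Not at hcon
    choose g hg using hcon
    obtain ⟨a, hab, -, ha⟩ := hΦ b
      ((Finset.range 16).image fun j : ℕ => ((b, g (((j : ℝ) / 16 : ℝ) : S)) : Ω × S))
      (1 / 32) (by norm_num)
    obtain ⟨r, hr⟩ := (hF a).osc b (Ne.symm hab)
    have hcov : ∀ z : ℝ, ∃ j ∈ Finset.range 16, ‖((z - (j : ℝ) / 16 : ℝ) : S)‖ ≤ 1 / 32 := by
      intro z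
      set n : ℤ := round (16 * z) with hn
      have hn1 : |16 * z - n| ≤ 1 / 2 := abs_sub_round _
      have hm0 : 0 ≤ n % 16 := Int.emod_nonneg _ (by norm_num)
      have hm1 : n % 16 < 16 := Int.emod_lt_of_pos _ (by norm_num)
      refine ⟨(n % 16).toNat, ?_, ?_⟩
      · rw [Finset.mem_range]
        omega
      · have hj : (((n % 16).toNat : ℕ) : ℝ) = ((n % 16 : ℤ) : ℝ) := by
          have : (((n % 16).toNat : ℕ) : ℤ) = n % 16 := Int.toNat_of_nonneg hm0
          exact_mod_cast this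
        have hsplit : (n : ℝ) = 16 * ((n / 16 : ℤ) : ℝ) + ((n % 16 : ℤ) : ℝ) := by
          have : n = 16 * (n / 16) + n % 16 := (Int.mul_ediv_add_emod n 16).symm
          exact_mod_cast this
        rw [hj]
        have h1 : ‖((z - ((n % 16 : ℤ) : ℝ) / 16 : ℝ) : S)‖ =
            |(z - ((n % 16 : ℤ) : ℝ) / 16) - round (z - ((n % 16 : ℤ) : ℝ) / 16)| :=
          UnitAddCircle.norm_eq
        rw [h1]
        refine (round_le (z - ((n % 16 : ℤ) : ℝ) / 16) (n / 16)).trans ?_
        rw [abs_le] at hn1 ⊢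
        constructor <;> linarith [hn1.1, hn1.2]
    obtain ⟨j, hj, hjz⟩ := hcov (r + 7 / 8)
    have hmem : ((b, g (((j : ℝ) / 16 : ℝ) : S)) : Ω × S) ∈
        ((Finset.range 16).image fun j : ℕ => ((b, g (((j : ℝ) / 16 : ℝ) : S)) : Ω × S)) :=
      Finset.mem_image_of_mem _ hj
    have h1 := ha _ hmem
    rw [hg] at h1
    obtain ⟨y, hy, hFy⟩ := hr (g (((j : ℝ) / 16 : ℝ) : S))
    rw [hFy, dist_eq_norm] at h1
    have h2 : ‖((r + 7 / 8 - y : ℝ) : S)‖ < 1 / 16 := by
      have h3 : ((r + 7 / 8 - y : ℝ) : S) =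
          ((r + 7 / 8 - (j : ℝ) / 16 : ℝ) : S) - ((y : S) - (((j : ℝ) / 16 : ℝ) : S)) := by
        rw [← AddCircle.coe_sub, ← AddCircle.coe_sub]
        congr 1
        ring
      rw [h3]
      refine (norm_sub_le _ _).trans_lt ?_
      linarith
    have h3 : ‖((r + 7 / 8 - y : ℝ) : S)‖ = |(r + 7 / 8 - y) - round (r + 7 / 8 - y)| :=
      UnitAddCircle.norm_eq
    rw [h3, abs_lt] at h2
    obtain ⟨hy0, hy1⟩ := hy
    rcases le_or_gt (round (r + 7 / 8 - y)) 0 with hm | hm
    · have : ((round (r + 7 / 8 - y) : ℤ) : ℝ) ≤ 0 := by exact_mod_cast hm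
      linarith [h2.1, h2.2]
    · have : (1 : ℝ) ≤ ((round (r + 7 / 8 - y) : ℤ) : ℝ) := by exact_mod_cast hm
      linarith [h2.1, h2.2]
  · intro b c hb
    refine (eq_of_forall_dist_le fun ε hε => ?_).symm
    obtain ⟨a, -, hqa, ha⟩ := hΦ b {(b, c)} ε hε
    have h1 := ha (b, c) (Finset.mem_singleton_self _)
    rw [(hF a).bdry hqa b c hb] at h1
    exact h1.le

end secE

end CFib
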