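import Mathlib
import Pool.Agent.Helper416.CFib.Space
import Pool.Agent.Helper416.CFib.Winding

open Set Filter Topology

noncomputable section

namespace CFib

variable {Ω : Type} [LinearOrder Ω]

lemma zero_dim_lift {Y : Type*} [TopologicalSpace Y] [CompactSpace Y] [T2Space Y]
    (hY : TopologicalSpace.IsTopologicalBasis {s : Set Y | IsClopen s}) (f : Y → S)
    (hf : Continuous f) : ∃ g : Y → ℝ, Continuous g ∧ ∀ y, ((g y : ℝ) : S) = f y := by
  haveI : TotallySeparatedSpace Y := totallySeparatedSpace_of_t0_of_basis_clopen hY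
  have hne : ((1/2 : ℝ) : S) ≠ ((0 : ℝ) : S) := by
    intro h
    rw [AddCircle.coe_eq_coe_iff_of_mem_Ico (p := (1:ℝ)) (a := 0) (by constructor <;> norm_num)
      (by constructor <;> norm_num)] at h
    norm_num at h
  obtain ⟨C, hC, hZC, hCU⟩ := exists_clopen_of_closed_subset_open (X := Y)
    (Z := f ⁻¹' {((1/2:ℝ):S)}) (U := (f ⁻¹' {((0:ℝ):S)})ᶜ)
    (isClosed_singleton.preimage hf) (isClosed_singleton.preimage hf).isOpen_compl
    (by
      intro y hy hy'
      exact hne (hy.symm.trans hy'))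
  classical
  refine ⟨fun y => if y ∈ C then (AddCircle.equivIco (1:ℝ) 0 (f y) : ℝ)
    else (AddCircle.equivIco (1:ℝ) (1/2) (f y) : ℝ), ?_, ?_⟩
  · rw [continuous_iff_continuousAt]
    intro y
    by_cases hy : y ∈ C
    · have h1 : ContinuousAt (fun y => (AddCircle.equivIco (1:ℝ) 0 (f y) : ℝ)) y :=
        continuous_subtype_val.continuousAt.comp
          ((AddCircle.continuousAt_equivIco 1 0 (hCU hy)).comp hf.continuousAt)
      refine h1.congr ?_
      filter_upwards [hC.isOpen.mem_nhds hy] with z hz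
      exact (if_pos hz).symm
    · have h1 : ContinuousAt (fun y => (AddCircle.equivIco (1:ℝ) (1/2) (f y) : ℝ)) y :=
        continuous_subtype_val.continuousAt.comp
          ((AddCircle.continuousAt_equivIco 1 (1/2) (fun h => hy (hZC h))).comp hf.continuousAt)
      refine h1.congr ?_
      filter_upwards [hC.compl.isOpen.mem_nhds hy] with z hz
      exact (if_neg hz).symm
  · intro y
    show (((if y ∈ C then (AddCircle.equivIco (1:ℝ) 0 (f y) : ℝ)
      else (AddCircle.equivIco (1:ℝ) (1/2) (f y) : ℝ) : ℝ)) : S) = f y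
    split_ifs
    · exact AddCircle.coe_equivIco
    · exact AddCircle.coe_equivIco

lemma lindelof_accum {Z : Type*} [TopologicalSpace Z] [LindelofSpace Z] {A : Type*}
    (hA : ¬ Countable A) (g : A → Z) : ∃ z : Z, ∀ U ∈ 𝓝 z, ¬ (g ⁻¹' U).Countable := by
  by_contra h
  push Not at h
  choose U hU hUc using h
  obtain ⟨t, htc, ht⟩ := countable_cover_nhds hU
  apply hA
  rw [← Set.countable_univ_iff]
  have h1 : (⋃ z ∈ t, g ⁻¹' U z).Countable := htc.biUnion fun z _ => hUc z
  refine h1.mono fun a _ => ?_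
  have h2 : g a ∈ ⋃ z ∈ t, U z := by rw [ht]; trivial
  simp only [mem_iUnion] at h2 ⊢
  obtain ⟨z, hz, hz2⟩ := h2
  exact ⟨z, hz, hz2⟩

lemma uncountable_int : ¬ (bdᶜ : Set B).Countable := by
  intro h
  have hhalf : (1 / 2 : ℝ) ∈ Icc (0 : ℝ) 1 := ⟨by norm_num, by norm_num⟩
  have hm : MapsTo (fun s : ℝ => ((projIcc 0 1 zero_le_one s, ⟨1 / 2, hhalf⟩) : B))
      (Ioo (0 : ℝ) 1) (bdᶜ : Set B) := by
    intro s hs
    have hs' : s ∈ Icc (0 : ℝ) 1 := ⟨hs.1.le, hs.2.le⟩
    simp only [bd, mem_compl_iff, mem_setOf_eq]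
    rw [projIcc_of_mem zero_le_one hs']
    rintro (h1 | h1 | h1 | h1)
    · have := congrArg Subtype.val h1
      simp at this
      exact hs.1.ne' this
    · have := congrArg Subtype.val h1
      simp at this
      exact hs.2.ne this
    · have := congrArg Subtype.val h1
      norm_num at this
    · have := congrArg Subtype.val h1
      norm_num at this
  have hi : InjOn (fun s : ℝ => ((projIcc 0 1 zero_le_one s, ⟨1 / 2, hhalf⟩) : B))
      (Ioo (0 : ℝ) 1) := by
    intro s hs s' hs' he
    have h1 := congrArg Prod.fst he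
    exact (strictMonoOn_projIcc zero_le_one).injOn (Ioo_subset_Icc_self hs) (Ioo_subset_Icc_self hs') h1
  have h2 : (Ioo (0 : ℝ) 1).Countable := hm.countable_of_injOn hi h
  have h3 := Cardinal.le_aleph0_iff_set_countable.mpr h2
  rw [Cardinal.mk_Ioo_real zero_lt_one] at h3
  exact absurd h3 (not_le.mpr Cardinal.aleph0_lt_continuum)

section secC
variable {q : Ω → B} {task : Ω → Σ k : ℕ, (ℕ → Fin k → Ω × S)} {F : Ω → Ω × S → S}

end secC

section secE
variable {q : Ω → B} {task : Ω → Σ k : ℕ, (ℕ → Fin k → Ω × S)} {F : Ω → Ω × S → S}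

end secE

theorem no_zero_dim [WellFoundedLT Ω] {q : Ω → B} {task : Ω → Σ k : ℕ, (ℕ → Fin k → Ω × S)}
    {F : Ω → Ω × S → S} (hF : Good q task F) (hq : Function.Bijective q)
    {Y : Type*} [TopologicalSpace Y] [CompactSpace Y] [T2Space Y]
    (hY : TopologicalSpace.IsTopologicalBasis {s : Set Y | IsClopen s}) (f : Y → XT q F)
    (hf : Continuous f) (hs : Function.Surjective f) :
    ¬ LindelofSpace {g : Y → ℝ // Continuous g} := by
  classical
  intro hL
  have hunc : ¬ Countable {a : Ω // q a ∉ bd} := by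
    intro hc
    apply uncountable_int
    refine (Set.countable_range (fun a : {a : Ω // q a ∉ bd} => q a.1)).mono ?_
    intro z hz
    obtain ⟨a, rfl⟩ := hq.surjective z
    exact ⟨⟨a, hz⟩, rfl⟩
  have hga : ∀ a : {a : Ω // q a ∉ bd}, ∃ g : Y → ℝ, Continuous g ∧
      ∀ y, ((g y : ℝ) : S) = F a.1 (f y) := fun a =>
    zero_dim_lift hY (fun y => F a.1 (f y)) ((cont_coord (q := q) (F := F) a.1).comp hf)
  choose ga hgac hgav using hga
  let G : {a : Ω // q a ∉ bd} → {g : Y → ℝ // Continuous g} := fun a => ⟨ga a, hgac a⟩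
  obtain ⟨⟨g, hg⟩, hacc⟩ := lindelof_accum hunc G
  have key : ∀ (K : Finset Y) (ε : ℝ), 0 < ε → ∀ b : Ω, ∃ a : {a : Ω // q a ∉ bd}, a.1 ≠ b ∧
      ∀ y ∈ K, |ga a y - g y| < ε := by
    intro K ε hε b
    let Un : Set {g : Y → ℝ // Continuous g} := ⋂ y ∈ K, {h | |h.1 y - g y| < ε}
    have hopen : IsOpen Un := by
      apply isOpen_biInter_finset
      intro y _
      have hc : Continuous fun h : {g : Y → ℝ // Continuous g} => |h.1 y - g y| :=
        (((continuous_apply y).comp continuous_subtype_val).sub continuous_const).abs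
      exact isOpen_lt hc continuous_const
    have hmem : (⟨g, hg⟩ : {g : Y → ℝ // Continuous g}) ∈ Un := by
      simp only [Un, Set.mem_iInter, Set.mem_ofPred_eq]
      intro y _
      simpa using hε
    have h1 := hacc Un (hopen.mem_nhds hmem)
    by_contra hcon
    push Not at hcon
    apply h1
    have hsub : G ⁻¹' Un ⊆ {a | a.1 = b} := by
      intro a ha
      by_contra hab
      obtain ⟨y, hy, hle⟩ := hcon a hab
      have ha' : G a ∈ Un := ha
      simp only [Un, Set.mem_iInter, Set.mem_ofPred_eq] at ha'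
      exact absurd (ha' y hy) (not_lt.2 hle)
    refine Set.Countable.mono hsub (Set.Subsingleton.countable ?_)
    intro a ha a' ha'
    exact Subtype.ext ((show a.1 = b from ha).trans (show a'.1 = b from ha').symm)
  have hdist : ∀ u v : ℝ, dist ((u : ℝ) : S) ((v : ℝ) : S) ≤ |u - v| := by
    intro u v
    rw [dist_eq_norm, ← AddCircle.coe_sub]
    exact QuotientAddGroup.norm_mk_le_norm
  have hfib : ∀ y y' : Y, f y = f y' → ((g y : ℝ) : S) = ((g y' : ℝ) : S) := by
    intro y y' hyy
    rw [← dist_le_zero]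
    apply le_of_forall_pos_lt_add
    intro ε hε
    obtain ⟨b, -⟩ := hq.surjective (q (f y).1)
    obtain ⟨a, -, ha⟩ := key {y, y'} (ε / 2) (by positivity) b
    have h1 := ha y (by simp)
    have h2 := ha y' (by simp)
    have e1 : ((ga a y : ℝ) : S) = ((ga a y' : ℝ) : S) := by rw [hgav, hgav, hyy]
    have h3 := dist_triangle ((g y : ℝ) : S) ((ga a y : ℝ) : S) ((g y' : ℝ) : S)
    have h4 := hdist (g y) (ga a y)
    have h5 := hdist (ga a y') (g y')
    rw [abs_sub_comm] at h4
    rw [e1] at h3 h4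
    linarith
  let Φ : Ω × S → S := fun x => ((g (Function.surjInv hs x) : ℝ) : S)
  have hΦf : ∀ y, Φ (f y) = ((g y : ℝ) : S) := by
    intro y
    exact hfib _ _ (Function.surjInv_eq hs (f y))
  haveI : T2Space (XT q F) := t2_XT hF hq.injective
  haveI : CompactSpace (XT q F) := compact_XT hF hq
  have hquot : IsQuotientMap f := (hf.isClosedMap).isQuotientMap hf hs
  have hΦc : Continuous (fun x : XT q F => Φ x) := by
    rw [hquot.continuous_iff]
    have : ((fun x : XT q F => Φ x) ∘ f) = fun y => ((g y : ℝ) : S) := by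
      funext y
      exact hΦf y
    rw [this]
    exact (AddCircle.continuous_mk' (1:ℝ)).comp hg
  obtain ⟨hd1, hd2⟩ := detect hF Φ (by
    intro b K ε hε
    obtain ⟨a, hab, ha⟩ := key (K.image (fun x => Function.surjInv hs x)) ε hε b
    refine ⟨a.1, hab, a.2, ?_⟩
    intro x hx
    have h1 := ha (Function.surjInv hs x) (Finset.mem_image.2 ⟨x, hx, rfl⟩)
    have e1 : F a.1 x = ((ga a (Function.surjInv hs x) : ℝ) : S) := by
      rw [hgav, Function.surjInv_eq hs]
    rw [e1]
    exact (hdist _ _).trans_lt h1)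
  refine no_winding (X := XT q F) (fun x => q (Prod.fst (α := Ω) (β := S) x)) cont_proj ?_
    (fibre_preconn hF hq) (fun x => Φ x) hΦc ?_ ?_
  · intro z
    obtain ⟨a, rfl⟩ := hq.surjective z
    exact ⟨((a, 0) : Ω × S), rfl⟩
  · intro z
    obtain ⟨b, rfl⟩ := hq.surjective z
    obtain ⟨w, hw⟩ := hd1 b
    refine ⟨w, ?_⟩
    rintro ⟨b', c⟩ hx
    have hb : b' = b := hq.injective hx
    subst hb
    exact hw c
  · rintro ⟨b, c⟩ hx
    exact hd2 b c hx

end CFib
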